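import Pool.Agent.Y694.BT.Stm
import Pool.Agent.Helper418.FE3

/-!
# Cells: elementary facts and the inequality for real functions
-/

set_option autoImplicit false

open MeasureTheory Filter Topology
open scoped ComplexOrder ComplexConjugate
open Pool.Agent.Helper418.FE

namespace Pool.Agent.Y694.BT

universe u v

section Mat

variable {m : ℕ}

/-- the quadratic form of a positive semidefinite matrix -/
lemma quad_nonneg {Q : Matrix (Fin m) (Fin m) ℂ} (hQ : Q.PosSemidef) (u : Fin m → ℂ) :
    0 ≤ (∑ j, ∑ k, conj (u j) * Q j k * u k).re := by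
  have h := hQ.dotProduct_mulVec_nonneg u
  have h2 : star u ⬝ᵥ (Q.mulVec u) = ∑ j, ∑ k, conj (u j) * Q j k * u k := by
    simp only [dotProduct, Matrix.mulVec, Finset.mul_sum, Pi.star_apply]
    refine Finset.sum_congr rfl fun j _ => Finset.sum_congr rfl fun k _ => ?_
    rw [← mul_assoc]
    rfl
  rw [h2] at h
  exact (Complex.le_def.1 h).1

lemma trace_nonneg {Q : Matrix (Fin m) (Fin m) ℂ} (hQ : Q.PosSemidef) : 0 ≤ Q.trace.re :=
  (Complex.le_def.1 hQ.trace_nonneg).1

lemma diag_re_nonneg {Q : Matrix (Fin m) (Fin m) ℂ} (hQ : Q.PosSemidef) (i : Fin m) :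
    0 ≤ (Q i i).re := (Complex.le_def.1 hQ.diag_nonneg).1

/-- entries are bounded by the trace -/
lemma entry_le {Q : Matrix (Fin m) (Fin m) ℂ} (hQ : Q.PosSemidef) (j k : Fin m) :
    ‖Q j k‖ ≤ Q.trace.re := by
  obtain ⟨lam, U, hU1, hU2, hU3, hU4⟩ := exists_spectral Q hQ.1
  have hlam : ∀ i, 0 ≤ lam i := by
    intro i
    have h := quad_nonneg hQ (fun j => U j i)
    rw [hU4 i] at h
    simpa using h
  have hUb : ∀ i j, ‖U j i‖ ≤ 1 := by
    intro i j
    have h1 : (∑ j, ‖U j i‖ ^ 2 : ℝ) = 1 := by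
      have h := hU2 i
      have h2 : ((∑ j, ‖U j i‖ ^ 2 : ℝ) : ℂ) = 1 := by
        rw [← h]
        push_cast
        refine Finset.sum_congr rfl fun j _ => ?_
        rw [← Complex.conj_mul']
      exact_mod_cast h2
    have h3 : ‖U j i‖ ^ 2 ≤ 1 := by
      rw [← h1]
      exact Finset.single_le_sum (f := fun j => ‖U j i‖ ^ 2) (fun _ _ => by positivity)
        (Finset.mem_univ j)
    nlinarith [norm_nonneg (U j i)]
  have htr : Q.trace.re = ∑ i, lam i := by
    have h1 : Q.trace = ((∑ i, lam i : ℝ) : ℂ) := by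
      rw [Matrix.trace]
      simp only [Matrix.diag_apply]
      simp_rw [hU3]
      rw [Finset.sum_comm]
      push_cast
      refine Finset.sum_congr rfl fun i _ => ?_
      rw [← Finset.mul_sum]
      have : ∑ j, U j i * conj (U j i) = 1 := by
        rw [← hU2 i]
        refine Finset.sum_congr rfl fun j _ => mul_comm _ _
      rw [this, mul_one]
    rw [h1, Complex.ofReal_re]
  rw [htr, hU3 j k]
  refine (norm_sum_le _ _).trans (Finset.sum_le_sum fun i _ => ?_)
  rw [norm_mul, norm_mul, Complex.norm_real, Real.norm_of_nonneg (hlam i), Complex.norm_conj]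
  have h1 : ‖U j i‖ * ‖U k i‖ ≤ 1 := mul_le_one₀ (hUb i j) (norm_nonneg _) (hUb i k)
  nlinarith [hlam i]

lemma trace_mul_nonneg {P Q : Matrix (Fin m) (Fin m) ℂ} (hP : P.PosSemidef) (hQ : Q.PosSemidef) :
    0 ≤ (P * Q).trace.re := by
  obtain ⟨lam, U, hU1, hU2, hU3, hU4⟩ := exists_spectral P hP.1
  have hlam : ∀ i, 0 ≤ lam i := by
    intro i
    have h := quad_nonneg hP (fun j => U j i)
    rw [hU4 i] at h
    simpa using h
  have h1 : (P * Q).trace = ∑ i, (lam i : ℂ) * ∑ j, ∑ k, conj (U j i) * Q j k * U k i := by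
    rw [Matrix.trace]
    simp only [Matrix.diag_apply, Matrix.mul_apply]
    simp_rw [hU3, Finset.sum_mul, Finset.mul_sum]
    rw [Finset.sum_comm]
    have : ∀ x : Fin m, ∑ y : Fin m, ∑ i : Fin m, (lam i : ℂ) * (U y i * conj (U x i)) * Q x y =
        ∑ i : Fin m, ∑ y : Fin m, (lam i : ℂ) * (conj (U x i) * Q x y * U y i) := by
      intro x
      rw [Finset.sum_comm]
      refine Finset.sum_congr rfl fun i _ => Finset.sum_congr rfl fun y _ => ?_
      ring
    simp_rw [this]
    rw [Finset.sum_comm]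
  rw [h1, Complex.re_sum]
  refine Finset.sum_nonneg fun i _ => ?_
  rw [Complex.re_ofReal_mul]
  exact mul_nonneg (hlam i) (quad_nonneg hQ _)

end Mat

section Cell

set_option linter.unusedSectionVars false

variable {X : Type u} [MeasurableSpace X] {μ : Measure X} [IsProbabilityMeasure μ] {m : ℕ}
  {ρ : X → Matrix (Fin m) (Fin m) ℂ}

lemma meas_trace (hρ : ∀ i j, Measurable fun x => ρ x i j) :
    Measurable fun x => (ρ x).trace.re := by
  unfold Matrix.trace
  simp only [Matrix.diag_apply]
  exact Complex.measurable_re.comp (Finset.measurable_sum _ fun i _ => hρ i i)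

lemma int_diag (hm : 0 < m) (hI : ∀ i j, ∫ x, ρ x i j ∂μ = if i = j then 1 / (m : ℂ) else 0)
    (i : Fin m) : Integrable (fun x => ρ x i i) μ := by
  by_contra h
  have h1 := hI i i
  rw [integral_undef h, if_pos rfl] at h1
  have h2 : (m : ℂ) ≠ 0 := by exact_mod_cast hm.ne'
  exact (one_div_ne_zero h2) h1.symm

lemma int_trace (hm : 0 < m) (hI : ∀ i j, ∫ x, ρ x i j ∂μ = if i = j then 1 / (m : ℂ) else 0) :
    Integrable (fun x => (ρ x).trace.re) μ := by
  unfold Matrix.trace
  simp only [Matrix.diag_apply]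
  exact (integrable_finsetSum _ fun i _ => int_diag hm hI i).re

lemma integral_trace (hm : 0 < m)
    (hI : ∀ i j, ∫ x, ρ x i j ∂μ = if i = j then 1 / (m : ℂ) else 0) :
    ∫ x, (ρ x).trace.re ∂μ = 1 := by
  have h1 : ∫ x, (ρ x).trace ∂μ = 1 := by
    unfold Matrix.trace
    simp only [Matrix.diag_apply]
    rw [integral_finsetSum _ fun i _ => int_diag hm hI i]
    simp_rw [hI]
    have h2 : (m : ℂ) ≠ 0 := by exact_mod_cast hm.ne'
    simp [h2]
  have h3 : Integrable (fun x => (ρ x).trace) μ := by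
    unfold Matrix.trace
    simp only [Matrix.diag_apply]
    exact integrable_finsetSum _ fun i _ => int_diag hm hI i
  have h4 := integral_re (𝕜 := ℂ) h3
  simp only [RCLike.re_eq_complex_re] at h4
  rw [h4, h1, Complex.one_re]

lemma int_entry (hm : 0 < m) (hρ : ∀ i j, Measurable fun x => ρ x i j)
    (hP : ∀ x, (ρ x).PosSemidef)
    (hI : ∀ i j, ∫ x, ρ x i j ∂μ = if i = j then 1 / (m : ℂ) else 0) (j k : Fin m) :
    Integrable (fun x => ρ x j k) μ :=
  (int_trace hm hI).mono' (hρ j k).aestronglyMeasurable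
    (Eventually.of_forall fun x => entry_le (hP x) j k)

lemma int_mul_entry (hρ : ∀ i j, Measurable fun x => ρ x i j) (hP : ∀ x, (ρ x).PosSemidef)
    {f : X → ℝ} (hf : Measurable f) (hi : Integrable (fun x => (ρ x).trace.re * f x) μ)
    (j k : Fin m) : Integrable (fun x => (f x : ℂ) * ρ x j k) μ := by
  refine hi.norm.mono' ?_ (Eventually.of_forall fun x => ?_)
  · exact ((Complex.measurable_ofReal.comp hf).mul (hρ j k)).aestronglyMeasurable
  · rw [norm_mul, Complex.norm_real, norm_mul, Real.norm_of_nonneg (trace_nonneg (hP x)),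
      mul_comm]
    exact mul_le_mul_of_nonneg_right (entry_le (hP x) j k) (norm_nonneg _)

end Cell

theorem t_cf : StmCF.{u} := by
  rintro X _ μ _ t k ⟨m, ρ, hm, hρ, hP, hI, ht, hk⟩
  have ht' : t = fun x => (ρ x).trace.re := funext ht
  have hm2 : (m : ℂ) ≠ 0 := by exact_mod_cast hm.ne'
  have hkx : ∀ x x', (k x x' : ℂ) = m * ((ρ x * ρ x').trace.re : ℂ) := by
    intro x x'
    rw [hk]; push_cast; rfl
  refine ⟨?_, ?_, ?_, ?_, ?_, ?_, ?_, ?_, ?_⟩
  · intro x; rw [ht]; exact trace_nonneg (hP x)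
  · rw [ht']; exact meas_trace hρ
  · rw [ht']; exact int_trace hm hI
  · rw [ht']; exact integral_trace hm hI
  · intro x x'
    rw [hk]
    exact mul_nonneg (Nat.cast_nonneg _) (trace_mul_nonneg (hP x) (hP x'))
  · intro x x'
    rw [hk, hk, Matrix.trace_mul_comm]
  · intro x hx x'
    rw [ht] at hx
    have h0 : ρ x = 0 := by
      ext i j
      have := entry_le (hP x) i j
      rw [hx] at this
      exact norm_le_zero_iff.1 this
    rw [hk, h0]
    simp
  · intro x'
    have h1 : Integrable (fun x => (ρ x * ρ x').trace) μ := by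
      unfold Matrix.trace
      simp only [Matrix.diag_apply, Matrix.mul_apply]
      exact integrable_finsetSum _ fun i _ => integrable_finsetSum _ fun j _ =>
        (int_entry hm hρ hP hI i j).mul_const _
    have h2 := h1.re.const_mul (m : ℝ)
    refine h2.congr (Eventually.of_forall fun x => ?_)
    simp only [RCLike.re_eq_complex_re]
    rw [hk]
  · intro x'
    have h1 : Integrable (fun x => (ρ x * ρ x').trace) μ := by
      unfold Matrix.trace
      simp only [Matrix.diag_apply, Matrix.mul_apply]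
      exact integrable_finsetSum _ fun i _ => integrable_finsetSum _ fun j _ =>
        (int_entry hm hρ hP hI i j).mul_const _
    have h2 : ∫ x, (ρ x * ρ x').trace ∂μ = (1 / (m : ℂ)) * (ρ x').trace := by
      unfold Matrix.trace
      simp only [Matrix.diag_apply, Matrix.mul_apply]
      rw [integral_finsetSum _ fun i _ => integrable_finsetSum _ fun j _ =>
        (int_entry hm hρ hP hI i j).mul_const _, Finset.mul_sum]
      refine Finset.sum_congr rfl fun i _ => ?_
      rw [integral_finsetSum _ fun j _ => (int_entry hm hρ hP hI i j).mul_const _]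
      simp_rw [integral_mul_const, hI]
      simp
    have h4 := integral_re (𝕜 := ℂ) h1
    simp only [RCLike.re_eq_complex_re] at h4
    simp_rw [hk]
    rw [integral_const_mul, h4, h2, ht]
    have h5 : (1 / (m : ℂ)) = ((1 / (m : ℝ) : ℝ) : ℂ) := by push_cast; rfl
    rw [h5, Complex.re_ofReal_mul]
    have hm3 : (m : ℝ) ≠ 0 := by exact_mod_cast hm.ne'
    field_simp

end Pool.Agent.Y694.BT
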