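import Pool.Agent.Y694.BT.Cell
import Pool.Agent.Helper418.FE4

/-!
# The inequality for one cell
-/

set_option autoImplicit false

open MeasureTheory Filter Topology
open scoped ComplexOrder ComplexConjugate
open Pool.Agent.Helper418.FE

namespace Pool.Agent.Y694.BT

universe u v

/-- The decomposition of a real function attached to its Toeplitz matrix. -/
lemma weights {X : Type u} [MeasurableSpace X] {μ : Measure X} [IsProbabilityMeasure μ] {m : ℕ}
    (hm : 0 < m) {ρ : X → Matrix (Fin m) (Fin m) ℂ} (hρ : ∀ i j, Measurable fun x => ρ x i j)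
    (hP : ∀ x, (ρ x).PosSemidef)
    (hI : ∀ i j, ∫ x, ρ x i j ∂μ = if i = j then 1 / (m : ℂ) else 0)
    {f : X → ℝ} (hf : Measurable f) (hi : Integrable (fun x => (ρ x).trace.re * f x) μ) :
    ∃ (lam : Fin m → ℝ) (w : Fin m → X → ℝ),
      (∀ i x, 0 ≤ w i x) ∧ (∀ x, ∑ i, w i x = (ρ x).trace.re) ∧
      (∀ x, ∑ i, lam i * w i x = ∫ x', m * (ρ x * ρ x').trace.re * f x' ∂μ) ∧
      (∀ i, Integrable (fun x => w i x * (f x - lam i)) μ) ∧
      (∀ i, ∫ x, w i x * (f x - lam i) ∂μ = 0) := by
  have hm2 : (m : ℂ) ≠ 0 := by exact_mod_cast hm.ne'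
  have hm3 : (m : ℝ) ≠ 0 := by exact_mod_cast hm.ne'
  have hent := int_mul_entry hρ hP hf hi
  have hone := int_entry (μ := μ) hm hρ hP hI
  set A : Matrix (Fin m) (Fin m) ℂ := fun j k => m * ∫ x, (f x : ℂ) * ρ x j k ∂μ with hA
  have hA' : ∀ j k, A j k = m * ∫ x, (f x : ℂ) * ρ x j k ∂μ := fun j k => rfl
  have hherm : A.IsHermitian := by
    ext j k
    rw [Matrix.conjTranspose_apply]
    simp only [hA]
    change conj ((m : ℂ) * ∫ x, (f x : ℂ) * ρ x k j ∂μ) = _
    rw [map_mul, ← integral_conj]
    congr 1
    · simp
    · congr 1
      funext x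
      rw [map_mul, Complex.conj_ofReal]
      congr 1
      have := congrFun (congrFun (hP x).1 j) k
      rw [Matrix.conjTranspose_apply] at this
      exact this
  obtain ⟨lam, U, hU1, hU2, hU3, hU4⟩ := exists_spectral A hherm
  set q : Fin m → X → ℂ := fun i x => ∑ j, ∑ k, conj (U j i) * ρ x j k * U k i with hq
  have hwc : ∀ i x, ((q i x).re : ℂ) = q i x := by
    intro i x
    have h1 : conj (q i x) = q i x := by
      simp only [hq]
      rw [map_sum, Finset.sum_comm]
      simp_rw [map_sum]
      rw [Finset.sum_comm]
      rw [Finset.sum_comm]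
      refine Finset.sum_congr rfl fun j _ => Finset.sum_congr rfl fun k _ => ?_
      rw [map_mul, map_mul, Complex.conj_conj]
      have := congrFun (congrFun (hP x).1 k) j
      rw [Matrix.conjTranspose_apply] at this
      change conj (ρ x j k) = ρ x k j at this
      rw [this]
      ring
    exact Complex.conj_eq_iff_re.1 h1
  refine ⟨lam, fun i x => (q i x).re, ?_, ?_, ?_, ?_, ?_⟩
  · intro i x
    exact quad_nonneg (hP x) _
  · intro x
    rw [← Complex.re_sum]
    congr 1
    simp only [hq]
    rw [Finset.sum_comm]
    unfold Matrix.trace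
    simp only [Matrix.diag_apply]
    refine Finset.sum_congr rfl fun j _ => ?_
    rw [Finset.sum_comm]
    have h2 : ∀ k, ∑ i, conj (U j i) * ρ x j k * U k i = ρ x j k * (if j = k then 1 else 0) := by
      intro k
      rw [← hU1 j k, Finset.mul_sum]
      refine Finset.sum_congr rfl fun i _ => ?_
      ring
    simp_rw [h2]
    simp
  · intro x
    have h1 : ((∑ i, lam i * (q i x).re : ℝ) : ℂ) = (ρ x * A).trace := by
      push_cast
      simp_rw [hwc]
      simp only [hq]
      unfold Matrix.trace
      simp only [Matrix.diag_apply, Matrix.mul_apply]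
      simp_rw [hU3, Finset.mul_sum]
      rw [Finset.sum_comm]
      refine Finset.sum_congr rfl fun j _ => ?_
      rw [Finset.sum_comm]
      refine Finset.sum_congr rfl fun k _ => ?_
      refine Finset.sum_congr rfl fun i _ => ?_
      ring
    have h2 : (ρ x * A).trace = ∫ x', (m : ℂ) * ((ρ x * ρ x').trace * (f x' : ℂ)) ∂μ := by
      unfold Matrix.trace
      simp only [Matrix.diag_apply, Matrix.mul_apply, hA']
      rw [integral_const_mul]
      simp_rw [Finset.sum_mul]
      rw [integral_finsetSum, Finset.mul_sum]
      · refine Finset.sum_congr rfl fun j _ => ?_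
        rw [integral_finsetSum, Finset.mul_sum]
        · refine Finset.sum_congr rfl fun k _ => ?_
          have : ∀ x', ρ x j k * ρ x' k j * (f x' : ℂ) = ρ x j k * ((f x' : ℂ) * ρ x' k j) :=
            fun x' => by ring
          simp_rw [this]
          rw [integral_const_mul]
          ring
        · intro k _
          have := (hent k j).const_mul (ρ x j k)
          refine this.congr (Eventually.of_forall fun x' => ?_)
          simp only
          ring
      · intro j _
        refine integrable_finsetSum _ fun k _ => ?_
        have := (hent k j).const_mul (ρ x j k)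
        refine this.congr (Eventually.of_forall fun x' => ?_)
        simp only
        ring
    have h3 : Integrable (fun x' => (m : ℂ) * ((ρ x * ρ x').trace * (f x' : ℂ))) μ := by
      unfold Matrix.trace
      simp only [Matrix.diag_apply, Matrix.mul_apply]
      refine Integrable.const_mul ?_ _
      simp_rw [Finset.sum_mul]
      refine integrable_finsetSum _ fun j _ => integrable_finsetSum _ fun k _ => ?_
      have := (hent k j).const_mul (ρ x j k)
      refine this.congr (Eventually.of_forall fun x' => ?_)
      simp only
      ring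
    have h4 := integral_re (𝕜 := ℂ) h3
    simp only [RCLike.re_eq_complex_re] at h4
    rw [← h2, ← h1, Complex.ofReal_re] at h4
    rw [← h4]
    congr 1
    funext x'
    have h5 : ((m : ℕ) : ℂ) = ((m : ℝ) : ℂ) := by push_cast; rfl
    rw [h5, Complex.re_ofReal_mul, mul_comm ((ρ x * ρ x').trace), Complex.re_ofReal_mul]
    ring
  · intro i
    have h1 : Integrable (fun x => q i x * (f x : ℂ)) μ := by
      simp only [hq]
      simp_rw [Finset.sum_mul]
      refine integrable_finsetSum _ fun j _ => integrable_finsetSum _ fun k _ => ?_
      have := (hent j k).const_mul (conj (U j i) * U k i)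
      refine this.congr (Eventually.of_forall fun x' => ?_)
      simp only
      ring
    have h2 : Integrable (fun x => q i x * (lam i : ℂ)) μ := by
      refine Integrable.mul_const ?_ _
      simp only [hq]
      refine integrable_finsetSum _ fun j _ => integrable_finsetSum _ fun k _ => ?_
      have := (hone j k).const_mul (conj (U j i) * U k i)
      refine this.congr (Eventually.of_forall fun x' => ?_)
      simp only
      ring
    refine (h1.sub h2).re.congr (Eventually.of_forall fun x => ?_)
    simp only [Pi.sub_apply, RCLike.re_eq_complex_re]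
    rw [← hwc i x, Complex.sub_re, Complex.re_ofReal_mul, Complex.re_ofReal_mul,
      Complex.ofReal_re, Complex.ofReal_re, Complex.ofReal_re]
    ring
  · intro i
    have i1 : Integrable (fun x => q i x * (f x : ℂ)) μ := by
      simp only [hq]
      simp_rw [Finset.sum_mul]
      refine integrable_finsetSum _ fun j _ => integrable_finsetSum _ fun k _ => ?_
      have := (hent j k).const_mul (conj (U j i) * U k i)
      refine this.congr (Eventually.of_forall fun x' => ?_)
      simp only
      ring
    have i2 : Integrable (fun x => q i x) μ := by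
      simp only [hq]
      refine integrable_finsetSum _ fun j _ => integrable_finsetSum _ fun k _ => ?_
      have := (hone j k).const_mul (conj (U j i) * U k i)
      refine this.congr (Eventually.of_forall fun x' => ?_)
      simp only
      ring
    have e1 : ∫ x, q i x * (f x : ℂ) ∂μ = (lam i : ℂ) / m := by
      rw [← hU4 i, Finset.sum_div]
      simp only [hq]
      simp_rw [Finset.sum_mul]
      rw [integral_finsetSum]
      · refine Finset.sum_congr rfl fun j _ => ?_
        rw [integral_finsetSum, Finset.sum_div]
        · refine Finset.sum_congr rfl fun k _ => ?_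
          have : ∀ x, conj (U j i) * ρ x j k * U k i * (f x : ℂ) =
            (conj (U j i) * U k i) * ((f x : ℂ) * ρ x j k) := fun x => by ring
          simp_rw [this]
          rw [integral_const_mul]
          simp only [hA]
          field_simp
        · intro k _
          have := (hent j k).const_mul (conj (U j i) * U k i)
          refine this.congr (Eventually.of_forall fun x' => ?_)
          simp only
          ring
      · intro j _
        refine integrable_finsetSum _ fun k _ => ?_
        have := (hent j k).const_mul (conj (U j i) * U k i)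
        refine this.congr (Eventually.of_forall fun x' => ?_)
        simp only
        ring
    have e2 : ∫ x, q i x ∂μ = 1 / m := by
      have hs : ∑ j, ∑ k, (conj (U j i) * U k i) * (if j = k then 1 / (m : ℂ) else 0) = 1 / m := by
        have : ∀ j, ∑ k, (conj (U j i) * U k i) * (if j = k then 1 / (m : ℂ) else 0) =
            conj (U j i) * U j i * (1 / m) := by
          intro j
          simp
        simp_rw [this]
        rw [← Finset.sum_mul, hU2 i, one_mul]
      rw [← hs]
      simp only [hq]
      rw [integral_finsetSum]
      · refine Finset.sum_congr rfl fun j _ => ?_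
        rw [integral_finsetSum]
        · refine Finset.sum_congr rfl fun k _ => ?_
          have : ∀ x, conj (U j i) * ρ x j k * U k i =
            (conj (U j i) * U k i) * (ρ x j k) := fun x => by ring
          simp_rw [this]
          rw [integral_const_mul, hI]
        · intro k _
          have := (hone j k).const_mul (conj (U j i) * U k i)
          refine this.congr (Eventually.of_forall fun x' => ?_)
          simp only
          ring
      · intro j _
        refine integrable_finsetSum _ fun k _ => ?_
        have := (hone j k).const_mul (conj (U j i) * U k i)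
        refine this.congr (Eventually.of_forall fun x' => ?_)
        simp only
        ring
    have e3 : ((∫ x, (q i x).re * (f x - lam i) ∂μ : ℝ) : ℂ) = 0 := by
      rw [← integral_complex_ofReal]
      have : ∀ x, (((q i x).re * (f x - lam i) : ℝ) : ℂ) = q i x * (f x : ℂ) - q i x * (lam i : ℂ) := by
        intro x
        push_cast
        rw [hwc]
        ring
      simp_rw [this]
      rw [integral_sub i1 (i2.mul_const _), e1, integral_mul_const, e2]
      ring
    exact_mod_cast e3

theorem t_ci : StmCI.{u} := by
  rintro X _ μ _ t k ⟨m, ρ, hm, hρ, hP, hI, ht, hk⟩ p hp f hf hi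
  have hp0 : 0 < p := by linarith
  simp_rw [ht] at hi
  obtain ⟨lam, w, hw0, hw1, hwk, hwint, hwi⟩ := weights hm hρ hP hI hf hi
  have hC1 := one_le_C hp
  have hD0 : 0 < C p ^ p := Real.rpow_pos_of_pos (by linarith) _
  choose s hs using fun i => line hp (lam i)
  have htr0 : ∀ x, 0 ≤ t x := fun x => by rw [ht]; exact trace_nonneg (hP x)
  have htm : Measurable t := by
    have : t = fun x => (ρ x).trace.re := funext ht
    rw [this]; exact meas_trace hρ
  by_cases hfin : ∫⁻ x, ENNReal.ofReal (t x * |f x| ^ p) ∂μ = ⊤
  · rw [hfin, ENNReal.mul_top]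
    · exact le_top
    · rw [Ne, ENNReal.ofReal_eq_zero, not_le]
      exact hD0
  have hmeas : Measurable fun x => t x * |f x| ^ p := by fun_prop
  have hfp : Integrable (fun x => t x * |f x| ^ p) μ := by
    refine ⟨hmeas.aestronglyMeasurable, ?_⟩
    rw [hasFiniteIntegral_iff_ofReal (Eventually.of_forall fun x =>
      mul_nonneg (htr0 x) (Real.rpow_nonneg (abs_nonneg _) _))]
    exact lt_top_iff_ne_top.2 hfin
  set R : X → ℝ := fun x => C p ^ p * (t x * |f x| ^ p) + ∑ i, s i * (w i x * (f x - lam i))
    with hR
  have hRint : Integrable R μ := by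
    refine (hfp.const_mul _).add ?_
    exact integrable_finsetSum _ fun i _ => (hwint i).const_mul _
  have hRI : ∫ x, R x ∂μ = C p ^ p * ∫ x, t x * |f x| ^ p ∂μ := by
    simp only [hR]
    rw [integral_add (hfp.const_mul _) (integrable_finsetSum _ fun i _ => (hwint i).const_mul _),
      integral_const_mul, integral_finsetSum _ (fun i _ => (hwint i).const_mul _)]
    have : ∀ i ∈ Finset.univ, ∫ x, s i * (w i x * (f x - lam i)) ∂μ = 0 := by
      intro i _
      rw [integral_const_mul, hwi, mul_zero]
    rw [Finset.sum_congr rfl this]
    simp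
  have hpt : ∀ x, t x * |f x - (∫ x', k x x' * f x' ∂μ) / t x| ^ p ≤ R x := by
    intro x
    have hRx : ∑ i, w i x * |f x - lam i| ^ p ≤ R x := by
      calc ∑ i, w i x * |f x - lam i| ^ p
          ≤ ∑ i, w i x * (C p ^ p * |f x| ^ p + s i * (f x - lam i)) :=
            Finset.sum_le_sum fun i _ => mul_le_mul_of_nonneg_left (hs i (f x)) (hw0 i x)
        _ = R x := by
            simp only [hR]
            have : ∀ i, w i x * (C p ^ p * |f x| ^ p + s i * (f x - lam i)) =
              w i x * (C p ^ p * |f x| ^ p) + s i * (w i x * (f x - lam i)) := fun i => by ring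
            simp_rw [this]
            rw [Finset.sum_add_distrib, ← Finset.sum_mul, hw1, ht]
            ring
    rcases (htr0 x).eq_or_lt with h0 | h0
    · rw [← h0, zero_mul]
      refine le_trans ?_ hRx
      exact Finset.sum_nonneg fun i _ => mul_nonneg (hw0 i x) (Real.rpow_nonneg (abs_nonneg _) _)
    · refine le_trans ?_ hRx
      have hZ : ∫ x', k x x' * f x' ∂μ = ∑ i, lam i * w i x := by
        rw [hwk]
        congr 1
        funext x'
        rw [hk]
      have hsum : ∑ i, w i x / t x = 1 := by
        rw [← Finset.sum_div, hw1, ← ht, div_self h0.ne']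
      have h1 : f x - (∫ x', k x x' * f x' ∂μ) / t x = ∑ i, w i x / t x * (f x - lam i) := by
        rw [hZ, Finset.sum_div]
        have : ∀ i, w i x / t x * (f x - lam i) = w i x / t x * f x - lam i * w i x / t x :=
          fun i => by ring
        simp_rw [this]
        rw [Finset.sum_sub_distrib, ← Finset.sum_mul, hsum, one_mul]
      rw [h1]
      have h2 : |∑ i, w i x / t x * (f x - lam i)| ^ p ≤ ∑ i, w i x / t x * |f x - lam i| ^ p := by
        calc |∑ i, w i x / t x * (f x - lam i)| ^ p
            ≤ (∑ i, w i x / t x * |f x - lam i|) ^ p := by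
              refine Real.rpow_le_rpow (abs_nonneg _) ?_ hp0.le
              refine (Finset.abs_sum_le_sum_abs _ _).trans (Finset.sum_le_sum fun i _ => ?_)
              rw [abs_mul, abs_of_nonneg (div_nonneg (hw0 i x) h0.le)]
          _ ≤ _ := Real.rpow_arith_mean_le_arith_mean_rpow _ _ _
              (fun i _ => div_nonneg (hw0 i x) h0.le) hsum (fun i _ => abs_nonneg _) hp.le
      calc t x * |∑ i, w i x / t x * (f x - lam i)| ^ p
          ≤ t x * ∑ i, w i x / t x * |f x - lam i| ^ p := mul_le_mul_of_nonneg_left h2 h0.le
        _ = ∑ i, w i x * |f x - lam i| ^ p := by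
            rw [Finset.mul_sum]
            refine Finset.sum_congr rfl fun i _ => ?_
            field_simp
  have hR0 : ∀ x, 0 ≤ R x := fun x =>
    (mul_nonneg (htr0 x) (Real.rpow_nonneg (abs_nonneg _) _)).trans (hpt x)
  calc ∫⁻ x, ENNReal.ofReal (t x * |f x - (∫ x', k x x' * f x' ∂μ) / t x| ^ p) ∂μ
      ≤ ∫⁻ x, ENNReal.ofReal (R x) ∂μ :=
        lintegral_mono fun x => ENNReal.ofReal_le_ofReal (hpt x)
    _ = ENNReal.ofReal (∫ x, R x ∂μ) := by
        rw [ofReal_integral_eq_lintegral_ofReal hRint (Filter.Eventually.of_forall hR0)]
    _ = ENNReal.ofReal (C p ^ p) * ENNReal.ofReal (∫ x, t x * |f x| ^ p ∂μ) := by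
        rw [hRI, ENNReal.ofReal_mul hD0.le]
    _ = ENNReal.ofReal (C p ^ p) * ∫⁻ x, ENNReal.ofReal (t x * |f x| ^ p) ∂μ := by
        rw [ofReal_integral_eq_lintegral_ofReal hfp (Filter.Eventually.of_forall fun x =>
          mul_nonneg (htr0 x) (Real.rpow_nonneg (abs_nonneg _) _))]

end Pool.Agent.Y694.BT
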