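import Mathlib
import Pool.Agent.Helper418.FEDefs

/-!
# Operators which factor through matrix-valued probability spaces

Definitions for the exact norm of `I - P` on `L^p` of a probability space.
-/

set_option autoImplicit false

open MeasureTheory
open scoped ComplexOrder

namespace Pool.Agent.Y694.BT

universe u v

/-- The measure `μ` is atomless: every measurable set of positive measure contains a measurable
subset of strictly smaller positive measure. -/
def Atomless {X : Type u} [MeasurableSpace X] (μ : Measure X) : Prop :=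
  ∀ A : Set X, MeasurableSet A → 0 < μ A → ∃ B ⊆ A, MeasurableSet B ∧ 0 < μ B ∧ μ B < μ A

/-- `t` and `k` come from a matrix-valued density of size `m`: there is a measurable function
`ρ` from `X` to the positive semidefinite complex `m × m` matrices with `∫ ρ dμ = I / m`,
`t(x) = tr ρ(x)` and `k(x, x') = m tr(ρ(x) ρ(x'))`. -/
def IsCell {X : Type u} [MeasurableSpace X] (μ : Measure X) (t : X → ℝ) (k : X → X → ℝ) : Prop :=
  ∃ (m : ℕ) (ρ : X → Matrix (Fin m) (Fin m) ℂ), 0 < m ∧
    (∀ i j, Measurable fun x => ρ x i j) ∧ (∀ x, (ρ x).PosSemidef) ∧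
    (∀ i j, ∫ x, ρ x i j ∂μ = if i = j then 1 / (m : ℂ) else 0) ∧
    (∀ x, t x = (ρ x).trace.re) ∧ ∀ x x', k x x' = m * (ρ x * ρ x').trace.re

/-- A joint law of a point `x` of `X`, a point `y` of `Y` and a matrix algebra over `y`. For
every `y` the functions `t(·, y)` and `k(·, ·, y)` come from a matrix-valued density, whose size
may depend on `y`, and `∫ t(x, y) dν(y) = 1` for every `x`. -/
structure IsJoint {X : Type u} {Y : Type v} [MeasurableSpace X] [MeasurableSpace Y]
    (μ : Measure X) (ν : Measure Y) (t : X → Y → ℝ) (k : X → X → Y → ℝ) : Prop where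
  cell : ∀ y, IsCell μ (fun x => t x y) (fun x x' => k x x' y)
  meas_t : Measurable fun z : X × Y => t z.1 z.2
  meas_k : Measurable fun z : X × X × Y => k z.1 z.2.1 z.2.2
  one : ∀ x, ∫ y, t x y ∂ν = 1

/-- The operator `(P f)(x) = ∫ ∫ k(x, x', y) f(x') dμ(x') dν(y)`. -/
noncomputable def op {X : Type u} {Y : Type v} [MeasurableSpace X] [MeasurableSpace Y]
    (μ : Measure X) (ν : Measure Y) (k : X → X → Y → ℝ) (f : X → ℂ) (x : X) : ℂ :=
  ∫ z : X × Y, (k x z.1 z.2 : ℂ) * f z.1 ∂(μ.prod ν)

/-- `N` is the norm on `L^p(μ)` (complex functions) of the operator `f ↦ f - T f`, i.e. `N` is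
the least constant `c ≥ 0` with `‖f - T f‖_p ≤ c ‖f‖_p` for all `f ∈ L^p(μ)`. -/
def IsNormIdSub {X : Type u} [MeasurableSpace X] (μ : Measure X) (T : (X → ℂ) → X → ℂ)
    (p N : ℝ) : Prop :=
  IsLeast {c : ℝ | 0 ≤ c ∧ ∀ f : X → ℂ, MemLp f (ENNReal.ofReal p) μ →
    eLpNorm (fun x => f x - T f x) (ENNReal.ofReal p) μ
      ≤ ENNReal.ofReal c * eLpNorm f (ENNReal.ofReal p) μ} N

end Pool.Agent.Y694.BT
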