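import Pool.Agent.Y694.BT.Stm
import Pool.Agent.Helper418.FE7

/-!
# Examples on the circle
-/

set_option autoImplicit false

open MeasureTheory Filter Topology
open scoped ComplexOrder ComplexConjugate
open Pool.Agent.Helper418.FE

namespace Pool.Agent.Y694.BT

/-- The kernel `|∑_i e^{i s_i x}|² / m` attached to `m` frequencies. -/
noncomputable def kS {m : ℕ} (s : Fin m → ℤ) (x : Circ) : ℝ := ‖∑ i, fourier (s i) x‖ ^ 2 / m

lemma kS_nonneg {m : ℕ} (s : Fin m → ℤ) (x : Circ) : 0 ≤ kS s x := by unfold kS; positivity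

lemma kS_continuous {m : ℕ} (s : Fin m → ℤ) : Continuous (kS s) := by
  unfold kS
  fun_prop

theorem cell_kS {m : ℕ} (hm : 0 < m) (s : Fin m → ℤ) (hs : Function.Injective s) :
    IsCell μ (fun _ => 1) (fun x x' => kS s (x - x')) := by
  have hm2 : (m : ℂ) ≠ 0 := by exact_mod_cast hm.ne'
  have hm3 : (m : ℝ) ≠ 0 := by exact_mod_cast hm.ne'
  set ρ : Circ → Matrix (Fin m) (Fin m) ℂ := fun x i j =>
    (1 / (m : ℂ)) * (e (s i) x * conj (e (s j) x)) with hρ
  have hρ' : ∀ x i j, ρ x i j = (1 / (m : ℂ)) * (e (s i) x * conj (e (s j) x)) :=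
    fun x i j => rfl
  refine ⟨m, ρ, hm, ?_, ?_, ?_, ?_, ?_⟩
  · intro i j
    have h1 := e_continuous (s i)
    have h2 := e_continuous (s j)
    exact (continuous_const.mul (h1.mul (Complex.continuous_conj.comp h2))).measurable
  · intro x
    have h1 : ρ x = (1 / (m : ℂ)) • Matrix.vecMulVec (fun i => e (s i) x) (star fun i => e (s i) x) := by
      ext i j
      simp only [hρ, Matrix.smul_apply, Matrix.vecMulVec_apply, Pi.star_apply, smul_eq_mul]
      rfl
    rw [h1]
    refine (Matrix.posSemidef_vecMulVec_self_star _).smul ?_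
    have : (1 / (m : ℂ)) = ((1 / (m : ℝ) : ℝ) : ℂ) := by push_cast; rfl
    rw [this]
    exact Complex.zero_le_real.2 (by positivity)
  · intro i j
    simp only [hρ]
    have h1 : ∀ x, (1 / (m : ℂ)) * (e (s i) x * conj (e (s j) x)) =
        (1 / (m : ℂ)) * e (s i - s j) x := by
      intro x
      rw [e_sub]
    simp_rw [h1]
    rw [integral_const_mul, integral_e]
    by_cases h : i = j
    · subst h; simp
    · rw [if_neg h, if_neg, mul_zero]
      intro h'
      exact h (hs (by linarith))
  · intro x
    have h1 : (ρ x).trace = 1 := by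
      unfold Matrix.trace
      simp only [Matrix.diag_apply, hρ']
      have : ∀ i, e (s i) x * conj (e (s i) x) = 1 := by
        intro i
        rw [Complex.mul_conj, Complex.normSq_eq_norm_sq, norm_e]
        simp
      simp_rw [this]
      simp [hm2]
    rw [h1, Complex.one_re]
  · intro x x'
    have h1 : (ρ x * ρ x').trace = (((1 / (m : ℝ)) ^ 2 * ‖∑ i, e (s i) (x - x')‖ ^ 2 : ℝ) : ℂ) := by
      rw [Complex.ofReal_mul, ← Complex.normSq_eq_norm_sq, ← Complex.mul_conj, map_sum,
        Finset.sum_mul_sum, Finset.mul_sum]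
      unfold Matrix.trace
      simp only [Matrix.diag_apply, Matrix.mul_apply, hρ']
      refine Finset.sum_congr rfl fun i _ => ?_
      rw [Finset.mul_sum]
      refine Finset.sum_congr rfl fun j _ => ?_
      rw [e_arg_sub, e_arg_sub, map_mul, Complex.conj_conj]
      push_cast
      ring
    rw [h1, Complex.ofReal_re]
    unfold kS
    change ‖∑ i, e (s i) (x - x')‖ ^ 2 / (m : ℝ) = _
    field_simp

lemma kS_range (n : ℕ) (x : Circ) : kS (fun i : Fin (n + 1) => (i : ℤ)) x = kR n x := by
  unfold kS kR
  rw [Finset.sum_range]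
  push_cast
  rfl

theorem cell_fej (n : ℕ) : IsCell μ (fun _ => 1) (fun x x' => kR n (x - x')) := by
  have h := cell_kS (Nat.succ_pos n) (fun i : Fin (n + 1) => (i : ℤ))
    (fun i j h => by
      have h2 : ((i : ℕ) : ℤ) = ((j : ℕ) : ℤ) := h
      exact Fin.ext (by exact_mod_cast h2))
  simp_rw [kS_range] at h
  exact h

/-- the operator of a single cell -/
lemma op_dirac {kk : Circ → ℝ} (hk : Continuous kk) {f : Circ → ℂ}
    (hf : Integrable f μ) :
    op μ (Measure.dirac ()) (fun x x' (_ : Unit) => kk (x - x')) f =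
      conv (fun x => (kk x : ℂ)) f := by
  funext x
  unfold op conv
  obtain ⟨B, hB⟩ := (isCompact_univ (X := Circ)).exists_bound_of_continuousOn (f := kk)
    hk.continuousOn
  have hi : Integrable (fun z : Circ × Unit => (kk (x - z.1) : ℂ) * f z.1)
      (μ.prod (Measure.dirac ())) := by
    refine (hf.comp_fst (Measure.dirac ())).bdd_mul (c := B) ?_ ?_
    · exact (Complex.continuous_ofReal.comp (hk.comp
        (continuous_const.sub continuous_fst))).aestronglyMeasurable
    · refine Eventually.of_forall fun z => ?_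
      rw [Complex.norm_real]
      exact hB _ (Set.mem_univ _)
  rw [integral_prod _ hi]
  congr 1
  funext x'
  rw [integral_dirac]

theorem joint_kS {m : ℕ} (hm : 0 < m) (s : Fin m → ℤ) (hs : Function.Injective s) :
    IsJoint μ (Measure.dirac ()) (fun (_ : Circ) (_ : Unit) => (1 : ℝ))
      (fun x x' (_ : Unit) => kS s (x - x')) := by
  refine ⟨fun _ => cell_kS hm s hs, measurable_const, ?_, fun x => by simp⟩
  exact ((kS_continuous s).comp (continuous_fst.sub
    (continuous_fst.comp continuous_snd))).measurable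

end Pool.Agent.Y694.BT
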