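import Pool.Agent.Y694.BT.Stm

/-!
# Pairwise independent sets of given measure
-/

set_option autoImplicit false

open MeasureTheory Filter Topology

namespace Pool.Agent.Y694.BT

universe u

theorem t_spl : StmSie.{u} → StmSpl.{u} := by
  intro hS X _ μ _ hμ α h0 h1 c hc
  have hfib : ∀ i : ℕ, MeasurableSet (c ⁻¹' {i}) := fun i => hc (measurableSet_singleton i)
  have hle : ∀ i : ℕ, ENNReal.ofReal α * μ (c ⁻¹' {i}) ≤ μ (c ⁻¹' {i}) := by
    intro i
    calc ENNReal.ofReal α * μ (c ⁻¹' {i}) ≤ 1 * μ (c ⁻¹' {i}) := by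
          gcongr
          rw [← ENNReal.ofReal_one]
          exact ENNReal.ofReal_le_ofReal h1.le
      _ = _ := one_mul _
  choose F hF1 hF2 hF3 using fun i => hS X μ hμ (c ⁻¹' {i}) (hfib i) _ (hle i)
  refine ⟨⋃ i, F i, MeasurableSet.iUnion hF2, ?_⟩
  intro B
  have hdF : ∀ i j, i ≠ j → Disjoint (F i) (F j) := by
    intro i j hij
    rw [Set.disjoint_left]
    intro x hx hy
    have e1 : c x = i := hF1 i hx
    have e2 : c x = j := hF1 j hy
    exact hij (e1.symm.trans e2)
  have e1 : (⋃ i, F i) ∩ c ⁻¹' B = ⋃ i : B, F i := by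
    ext x
    simp only [Set.mem_inter_iff, Set.mem_iUnion, Set.mem_preimage, Subtype.exists, exists_prop]
    constructor
    · rintro ⟨⟨i, hi⟩, hB⟩
      have e1 : c x = i := hF1 i hi
      exact ⟨i, e1 ▸ hB, hi⟩
    · rintro ⟨i, hiB, hi⟩
      have e1 : c x = i := hF1 i hi
      exact ⟨⟨i, hi⟩, e1 ▸ hiB⟩
  have e2 : c ⁻¹' B = ⋃ i : B, c ⁻¹' {(i : ℕ)} := by
    ext x
    simp
  rw [e1, e2, measure_iUnion, measure_iUnion, ← ENNReal.tsum_mul_left]
  · exact tsum_congr fun i => hF3 i
  · intro i j hij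
    simp only [Function.onFun]
    rw [Set.disjoint_left]
    intro x hx hy
    have e1 : c x = i := hx
    have e2 : c x = j := hy
    exact hij (Subtype.ext (e1.symm.trans e2))
  · exact fun i => hfib i
  · intro i j hij
    exact hdF i j (fun h => hij (Subtype.ext h))
  · exact fun i => hF2 i

theorem t_ind : StmSpl.{u} → StmInd.{u} := by
  intro hS X _ μ _ hμ α h0 h1
  classical
  let P : Type u := {c : X → ℕ // Measurable c}
  choose A hAm hA using fun c : P => hS X μ hμ α h0 h1 c.1 c.2
  have hnx : ∀ c : P, Measurable fun x => 2 * c.1 x + if x ∈ A c then 1 else 0 := by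
    intro c
    exact (c.2.const_mul 2).add (Measurable.ite (hAm c) measurable_const measurable_const)
  let nx : P → P := fun c => ⟨_, hnx c⟩
  let c0 : P := ⟨fun _ => 0, measurable_const⟩
  let S : ℕ → P := fun n => nx^[n] c0
  have hSs : ∀ n, S (n + 1) = nx (S n) := fun n => Function.iterate_succ_apply' nx n c0
  have hSx : ∀ n x, (S (n + 1)).1 x = 2 * (S n).1 x + if x ∈ A (S n) then 1 else 0 := by
    intro n x
    rw [hSs]
  have hB : ∀ n d, ∃ B : Set ℕ, A (S n) = (S (n + 1 + d)).1 ⁻¹' B := by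
    intro n d
    induction d with
    | zero =>
      refine ⟨{i | i % 2 = 1}, ?_⟩
      ext x
      simp only [Set.mem_preimage, Set.mem_setOf_eq, Nat.add_zero]
      rw [hSx]
      split_ifs with h
      · simp only [h, true_iff]; omega
      · simp only [h, false_iff]; omega
    | succ d ih =>
      obtain ⟨B, hB⟩ := ih
      refine ⟨{i | i / 2 ∈ B}, ?_⟩
      rw [hB]
      ext x
      simp only [Set.mem_preimage, Set.mem_setOf_eq]
      have : n + 1 + (d + 1) = (n + 1 + d) + 1 := by ring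
      rw [this, hSx]
      have h2 : (2 * (S (n + 1 + d)).1 x + if x ∈ A (S (n + 1 + d)) then 1 else 0) / 2 =
          (S (n + 1 + d)).1 x := by
        split_ifs <;> omega
      rw [h2]
  have hone : ∀ n, μ (A (S n)) = ENNReal.ofReal α := by
    intro n
    have := hA (S n) Set.univ
    rw [Set.preimage_univ, Set.inter_univ, measure_univ, mul_one] at this
    exact this
  have hlt : ∀ i j, i < j → μ (A (S j) ∩ A (S i)) = ENNReal.ofReal (α ^ 2) := by
    intro i j hij
    obtain ⟨d, rfl⟩ := Nat.exists_eq_add_of_le hij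
    obtain ⟨B, hB⟩ := hB i d
    rw [Nat.succ_eq_add_one]
    have h2 := hA (S (i + 1 + d)) B
    rw [← hB, hone] at h2
    rw [h2, pow_two, ENNReal.ofReal_mul h0.le]
  refine ⟨fun n => A (S n), fun n => hAm _, hone, ?_⟩
  intro i j hij
  rcases lt_or_gt_of_ne hij with h | h
  · rw [Set.inter_comm]; exact hlt i j h
  · exact hlt j i h

end Pool.Agent.Y694.BT
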