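import Pool.Agent.Y694.BT.UpC
import Pool.Agent.Helper418.FE7

/-!
# The lower bound on atomless spaces
-/

set_option autoImplicit false

open MeasureTheory Filter Topology
open Pool.Agent.Helper418.FE

namespace Pool.Agent.Y694.BT

universe u v

open Classical in
/-- two-valued function -/
noncomputable def tv {X : Type u} (A : Set X) (a b : ℝ) (x : X) : ℂ :=
  if x ∈ A then (a : ℂ) else (b : ℂ)

section

set_option linter.unusedSectionVars false

variable {X : Type u} [MeasurableSpace X] {μ : Measure X} [IsProbabilityMeasure μ]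

lemma tv_meas {A : Set X} (hA : MeasurableSet A) (a b : ℝ) : Measurable (tv A a b) := by
  classical
  unfold tv
  exact Measurable.ite hA measurable_const measurable_const

lemma tv_le (A : Set X) (a b : ℝ) (x : X) : ‖tv A a b x‖ ≤ |a| + |b| := by
  unfold tv
  split_ifs
  · rw [Complex.norm_real, Real.norm_eq_abs]; linarith [abs_nonneg b]
  · rw [Complex.norm_real, Real.norm_eq_abs]; linarith [abs_nonneg a]

lemma tv_sub (A : Set X) (a b m : ℝ) (x : X) :
    tv A a b x - (m : ℂ) = tv A (a - m) (b - m) x := by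
  unfold tv
  split_ifs <;> push_cast <;> ring

lemma tv_real (A : Set X) (a b : ℝ) (x : X) :
    tv A a b x = ((b + (a - b) * A.indicator (fun _ => (1 : ℝ)) x : ℝ) : ℂ) := by
  unfold tv
  split_ifs with h
  · rw [Set.indicator_of_mem h]; push_cast; ring
  · rw [Set.indicator_of_notMem h]; push_cast; ring

lemma tv_memLp {A : Set X} (hA : MeasurableSet A) (a b : ℝ) (p : ENNReal) :
    MemLp (tv A a b) p μ :=
  MemLp.of_bound (tv_meas hA a b).aestronglyMeasurable (|a| + |b|)
    (Eventually.of_forall (tv_le A a b))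

lemma tv_lint {A : Set X} (hA : MeasurableSet A) {α : ℝ} (h0 : 0 ≤ α) (h1 : α ≤ 1)
    (mA : μ A = ENNReal.ofReal α) (a b : ℝ) {p : ℝ} (hp : 0 ≤ p) :
    ∫⁻ x, ‖tv A a b x‖ₑ ^ p ∂μ = ENNReal.ofReal (α * |a| ^ p + (1 - α) * |b| ^ p) := by
  rw [← lintegral_add_compl _ hA]
  have mAc : μ Aᶜ = ENNReal.ofReal (1 - α) := by
    rw [prob_compl_eq_one_sub hA, mA, ENNReal.ofReal_sub _ h0, ENNReal.ofReal_one]
  have h2 : ∫⁻ x in A, ‖tv A a b x‖ₑ ^ p ∂μ = ∫⁻ x in A, ENNReal.ofReal (|a| ^ p) ∂μ := by
    refine setLIntegral_congr_fun hA fun x hx => ?_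
    rw [enorm_rpow _ hp, tv, if_pos hx, Complex.norm_real, Real.norm_eq_abs]
  have h3 : ∫⁻ x in Aᶜ, ‖tv A a b x‖ₑ ^ p ∂μ = ∫⁻ x in Aᶜ, ENNReal.ofReal (|b| ^ p) ∂μ := by
    refine setLIntegral_congr_fun hA.compl fun x hx => ?_
    rw [enorm_rpow _ hp, tv, if_neg hx, Complex.norm_real, Real.norm_eq_abs]
  have ha : 0 ≤ |a| ^ p := Real.rpow_nonneg (abs_nonneg _) _
  have hb : 0 ≤ |b| ^ p := Real.rpow_nonneg (abs_nonneg _) _
  rw [h2, h3, setLIntegral_const, setLIntegral_const, mA, mAc, ← ENNReal.ofReal_mul ha,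
    ← ENNReal.ofReal_mul hb, ← ENNReal.ofReal_add (mul_nonneg ha h0)
      (mul_nonneg hb (by linarith))]
  congr 1
  ring

end

section

set_option linter.unusedSectionVars false

variable {X : Type u} {Y : Type v} [MeasurableSpace X] [MeasurableSpace Y] {μ : Measure X}
  {ν : Measure Y} [IsProbabilityMeasure μ] [IsProbabilityMeasure ν] {t : X → Y → ℝ}
  {k : X → X → Y → ℝ}

lemma k_marg' (hCF : StmCF.{u}) (hJ : IsJoint μ ν t k) (x : X) (y : Y) :
    Integrable (fun x' => k x x' y) μ ∧ ∫ x', k x x' y ∂μ = t x y := by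
  have hF := facts hCF hJ y
  have h1 : (fun x' => k x x' y) = fun x' => k x' x y := funext fun x' => hF.k_symm x x'
  rw [h1]
  exact ⟨hF.k_int x, hF.k_marg x⟩

lemma k_prod (hCF : StmCF.{u}) (hJ : IsJoint μ ν t k) (x : X) :
    Integrable (fun z : X × Y => k x z.1 z.2) (μ.prod ν) := by
  have hk := hJ.meas_k
  have hkx : Measurable fun z : X × Y => k x z.1 z.2 :=
    hk.comp (measurable_const.prodMk measurable_id)
  refine ⟨hkx.aestronglyMeasurable, ?_⟩
  have hnn : 0 ≤ᵐ[μ.prod ν] fun z : X × Y => k x z.1 z.2 :=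
    Eventually.of_forall fun z => k_nn hCF hJ x z.1 z.2
  rw [hasFiniteIntegral_iff_ofReal hnn,
    lintegral_prod_symm _ hkx.ennreal_ofReal.aemeasurable]
  have h1 : ∀ y, ∫⁻ x', ENNReal.ofReal (k x x' y) ∂μ = ENNReal.ofReal (t x y) := by
    intro y
    obtain ⟨h1, h2⟩ := k_marg' hCF hJ x y
    rw [← ofReal_integral_eq_lintegral_ofReal h1
      (Eventually.of_forall fun x' => k_nn hCF hJ x x' y), h2]
  simp_rw [h1]
  rw [lint_t hCF hJ]
  exact ENNReal.one_lt_top

lemma op_tv (hCF : StmCF.{u}) (hJ : IsJoint μ ν t k) (a b : ℝ) {A : Set X}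
    (hA : MeasurableSet A) (x : X) :
    op μ ν k (tv A a b) x =
      ((∫ y, ((a - b) * (∫ x' in A, k x x' y ∂μ) + b * t x y) ∂ν : ℝ) : ℂ) := by
  have hkp := k_prod hCF hJ x
  have hind : Measurable (A.indicator (fun _ => (1 : ℝ))) := measurable_const.indicator hA
  have e1 : op μ ν k (tv A a b) x =
      ((∫ z : X × Y, k x z.1 z.2 * (b + (a - b) * A.indicator (fun _ => (1 : ℝ)) z.1)
        ∂(μ.prod ν) : ℝ) : ℂ) := by
    unfold op
    rw [← integral_complex_ofReal]
    congr 1
    funext z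
    rw [tv_real]
    push_cast
    rfl
  rw [e1]
  congr 1
  have hi : Integrable (fun z : X × Y =>
      k x z.1 z.2 * (b + (a - b) * A.indicator (fun _ => (1 : ℝ)) z.1)) (μ.prod ν) := by
    refine hkp.mul_bdd (c := |b| + |a - b|) ?_ (Eventually.of_forall fun z => ?_)
    · exact (measurable_const.add ((hind.comp measurable_fst).const_mul _)).aestronglyMeasurable
    · rw [Real.norm_eq_abs]
      by_cases h : z.1 ∈ A
      · rw [Set.indicator_of_mem h, mul_one]; exact abs_add_le _ _
      · rw [Set.indicator_of_notMem h, mul_zero, add_zero]; linarith [abs_nonneg (a - b)]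
  rw [integral_prod_symm _ hi]
  congr 1
  funext y
  obtain ⟨h1, h2⟩ := k_marg' hCF hJ x y
  have e2 : ∀ x', k x x' y * (b + (a - b) * A.indicator (fun _ => (1 : ℝ)) x') =
      (a - b) * A.indicator (fun x' => k x x' y) x' + b * k x x' y := by
    intro x'
    by_cases h : x' ∈ A
    · rw [Set.indicator_of_mem h, Set.indicator_of_mem h]; ring
    · rw [Set.indicator_of_notMem h, Set.indicator_of_notMem h]; ring
  simp_rw [e2]
  rw [integral_add ((h1.indicator hA).const_mul _) (h1.const_mul _), integral_const_mul,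
    integral_const_mul, integral_indicator hA, h2]

lemma op_tv_le (hCF : StmCF.{u}) (hJ : IsJoint μ ν t k) (a b : ℝ) {A : Set X}
    (x : X) : ‖op μ ν k (tv A a b) x‖ ≤ |a| + |b| := by
  have hkp := k_prod hCF hJ x
  unfold op
  refine (norm_integral_le_of_norm_le (hkp.mul_const (|a| + |b|)) (Eventually.of_forall fun z => ?_)).trans ?_
  · rw [norm_mul, Complex.norm_real, Real.norm_of_nonneg (k_nn hCF hJ _ _ _)]
    exact mul_le_mul_of_nonneg_left (tv_le _ _ _ _) (k_nn hCF hJ _ _ _)
  · rw [integral_mul_const, integral_prod_symm _ hkp]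
    have h1 : ∀ y, ∫ x', k x x' y ∂μ = t x y := fun y => (k_marg' hCF hJ x y).2
    simp_rw [h1]
    rw [hJ.one, one_mul]

lemma op_tv_tendsto (hCF : StmCF.{u}) (hJ : IsJoint μ ν t k) (a b : ℝ) {A : ℕ → Set X}
    (hA : ∀ n, MeasurableSet (A n)) {α : ℝ}
    (hw : ∀ h : X → ℝ, Integrable h μ →
        Tendsto (fun n => ∫ x in A n, h x ∂μ) atTop (𝓝 (α * ∫ x, h x ∂μ))) (x : X) :
    Tendsto (fun n => op μ ν k (tv (A n) a b) x) atTop (𝓝 ((α * a + (1 - α) * b : ℝ) : ℂ)) := by
  simp_rw [op_tv hCF hJ a b (hA _) x]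
  refine (Complex.continuous_ofReal.tendsto _).comp ?_
  have hlim : ∫ y, ((a - b) * (α * t x y) + b * t x y) ∂ν = α * a + (1 - α) * b := by
    have : ∀ y, (a - b) * (α * t x y) + b * t x y = ((a - b) * α + b) * t x y := fun y => by ring
    simp_rw [this]
    rw [integral_const_mul, hJ.one]
    ring
  rw [← hlim]
  have hk := hJ.meas_k
  have hkx : Measurable fun z : X × Y => k x z.1 z.2 :=
    hk.comp (measurable_const.prodMk measurable_id)
  have htx : Measurable (t x) := hJ.meas_t.comp (measurable_const.prodMk measurable_id)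
  have hset : ∀ n y, 0 ≤ ∫ x' in A n, k x x' y ∂μ ∧ ∫ x' in A n, k x x' y ∂μ ≤ t x y := by
    intro n y
    obtain ⟨h1, h2⟩ := k_marg' hCF hJ x y
    constructor
    · exact integral_nonneg fun x' => k_nn hCF hJ x x' y
    · rw [← h2]
      exact setIntegral_le_integral h1 (Eventually.of_forall fun x' => k_nn hCF hJ x x' y)
  refine tendsto_integral_of_dominated_convergence (fun y => (|a - b| + |b|) * t x y) ?_
    ((t_int hJ x).const_mul _) ?_ ?_
  · intro n
    have h1 : StronglyMeasurable fun w : Y × X => (A n).indicator (fun x' => k x x' w.1) w.2 := by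
      have h2 : (fun w : Y × X => (A n).indicator (fun x' => k x x' w.1) w.2) =
          (Set.univ ×ˢ (A n)).indicator (fun w : Y × X => k x w.2 w.1) := by
        funext w
        by_cases h : w.2 ∈ A n
        · rw [Set.indicator_of_mem h, Set.indicator_of_mem (by simp [h])]
        · rw [Set.indicator_of_notMem h, Set.indicator_of_notMem (by simp [h])]
      rw [h2]
      exact ((hkx.comp measurable_swap).indicator (MeasurableSet.univ.prod (hA n))).stronglyMeasurable
    have h3 := h1.integral_prod_right' (ν := μ)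
    have h4 : (fun y => ∫ x' in A n, k x x' y ∂μ) =
        fun y => ∫ x', (A n).indicator (fun x' => k x x' y) x' ∂μ := by
      funext y
      rw [integral_indicator (hA n)]
    have h5 : Measurable fun y => ∫ x' in A n, k x x' y ∂μ := by
      rw [h4]
      exact h3.measurable
    exact ((h5.const_mul _).add (htx.const_mul _)).aestronglyMeasurable
  · intro n
    refine Eventually.of_forall fun y => ?_
    obtain ⟨h1, h2⟩ := hset n y
    rw [Real.norm_eq_abs]
    refine (abs_add_le _ _).trans ?_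
    rw [abs_mul, abs_mul, abs_of_nonneg h1, abs_of_nonneg (t_nn hCF hJ x y), add_mul]
    gcongr
  · refine Eventually.of_forall fun y => ?_
    obtain ⟨h1, h2⟩ := k_marg' hCF hJ x y
    have h3 := hw _ h1
    rw [h2] at h3
    exact (h3.const_mul _).add_const _

end

theorem t_low : StmCF.{u} → StmInd.{u} → StmWeak.{u} → StmLow.{u,v} := by
  intro hCF hInd hWeak X Y _ _ μ ν _ _ t k hJ hμ p hp c hc h
  have hp0 : 0 < p := by linarith
  have hp1 : 1 ≤ ENNReal.ofReal p := by
    rw [← ENNReal.ofReal_one]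
    exact ENNReal.ofReal_le_ofReal hp.le
  refine C_le hp fun α h0 h1 => ?_
  obtain ⟨a, b, hQ, hE⟩ := extremal hp h0 h1
  obtain ⟨A, hA, mA, hI⟩ := hInd X μ hμ α h0 h1
  have hw := hWeak X μ α h0 h1 A hA mA hI
  have hφ := φ_nonneg (p := p) h0.le h1.le
  set m : ℝ := α * a + (1 - α) * b with hm
  set Q : ℝ := α * |a| ^ p + (1 - α) * |b| ^ p with hQdef
  set W : ENNReal := ENNReal.ofReal Q ^ (1 / p) with hW
  have hY : ∀ n, eLpNorm (tv (A n) a b) (ENNReal.ofReal p) μ = W := by
    intro n
    rw [eLpNorm_eqX hp, tv_lint (hA n) h0.le h1.le (mA n) a b hp0.le]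
  have hE2 : ∀ n, eLpNorm (tv (A n) (a - m) (b - m)) (ENNReal.ofReal p) μ =
      ENNReal.ofReal (φ p α) * W := by
    intro n
    rw [eLpNorm_eqX hp, tv_lint (hA n) h0.le h1.le (mA n) _ _ hp0.le, hE,
      ENNReal.ofReal_mul (by positivity), ENNReal.mul_rpow_of_nonneg _ _ (by positivity)]
    congr 1
    rw [ENNReal.ofReal_rpow_of_nonneg (by positivity) (by positivity), ← Real.rpow_mul hφ]
    have : p * (1 / p) = 1 := by field_simp
    rw [this, Real.rpow_one]
  have hW0 : W ≠ 0 := by
    rw [hW, Ne, ENNReal.rpow_eq_zero_iff]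
    push Not
    constructor
    · intro h
      rw [ENNReal.ofReal_eq_zero] at h
      linarith
    · intro h
      exact absurd h ENNReal.ofReal_ne_top
  have hWt : W ≠ ⊤ := ENNReal.rpow_ne_top_of_nonneg (by positivity) ENNReal.ofReal_ne_top
  have hopm : ∀ n, StronglyMeasurable (op μ ν k (tv (A n) a b)) := fun n =>
    op_meas hJ (tv_meas (hA n) a b)
  set R : ℕ → ENNReal := fun n =>
    eLpNorm (fun x => op μ ν k (tv (A n) a b) x - (m : ℂ)) (ENNReal.ofReal p) μ with hR
  have key : ∀ n, ENNReal.ofReal (φ p α) * W ≤ ENNReal.ofReal c * W + R n := by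
    intro n
    have h2 := h _ (tv_memLp (hA n) a b (ENNReal.ofReal p))
    rw [hY] at h2
    rw [← hE2 n]
    have h4 : tv (A n) (a - m) (b - m) =
        (fun x => tv (A n) a b x - op μ ν k (tv (A n) a b) x) +
        (fun x => op μ ν k (tv (A n) a b) x - (m : ℂ)) := by
      funext x
      simp only [Pi.add_apply]
      rw [← tv_sub]
      ring
    rw [h4]
    refine (eLpNorm_add_le ?_ ?_ hp1).trans (add_le_add h2 le_rfl)
    · exact (tv_meas (hA n) a b).aestronglyMeasurable.sub (hopm n).aestronglyMeasurable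
    · exact (hopm n).aestronglyMeasurable.sub aestronglyMeasurable_const
  have hRlim : Tendsto R atTop (𝓝 0) := by
    have h5 : Tendsto (fun n => ∫⁻ x, ‖op μ ν k (tv (A n) a b) x - (m : ℂ)‖ₑ ^ p ∂μ) atTop
        (𝓝 (∫⁻ _, 0 ∂μ)) := by
      refine tendsto_lintegral_of_dominated_convergence
        (fun _ => ENNReal.ofReal ((|a| + |b| + |m|) ^ p)) ?_ ?_ ?_ ?_
      · intro n
        exact (((hopm n).sub stronglyMeasurable_const).enorm).pow_const p
      · intro n
        refine Eventually.of_forall fun x => ?_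
        simp only
        rw [enorm_rpow _ hp0.le]
        refine ENNReal.ofReal_le_ofReal (Real.rpow_le_rpow (norm_nonneg _) ?_ hp0.le)
        refine (norm_sub_le _ _).trans ?_
        rw [Complex.norm_real, Real.norm_eq_abs]
        linarith [op_tv_le hCF hJ a b (A := A n) x]
      · simp
      · refine Eventually.of_forall fun x => ?_
        have h6 := op_tv_tendsto hCF hJ a b hA hw x
        have h7 : Tendsto (fun n => op μ ν k (tv (A n) a b) x - (m : ℂ)) atTop (𝓝 0) := by
          have := h6.sub_const (m : ℂ)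
          rwa [sub_self] at this
        have h8 : Tendsto (fun n => ‖op μ ν k (tv (A n) a b) x - (m : ℂ)‖ₑ) atTop (𝓝 0) := by
          have := (continuous_enorm.tendsto (0 : ℂ)).comp h7
          rwa [enorm_zero] at this
        have h9 := (ENNReal.continuous_rpow_const (y := p)).tendsto 0
        rw [ENNReal.zero_rpow_of_pos hp0] at h9
        exact h9.comp h8
    rw [lintegral_zero] at h5
    have h9 := (ENNReal.continuous_rpow_const (y := 1 / p)).tendsto 0
    rw [ENNReal.zero_rpow_of_pos (by positivity)] at h9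
    refine (h9.comp h5).congr fun n => ?_
    simp only [hR, Function.comp_apply]
    rw [eLpNorm_eqX hp]
  have hlim : Tendsto (fun n => ENNReal.ofReal c * W + R n) atTop
      (𝓝 (ENNReal.ofReal c * W + 0)) := hRlim.const_add _
  rw [add_zero] at hlim
  exact le_of_ofReal hc hW0 hWt (ge_of_tendsto' hlim key)

end Pool.Agent.Y694.BT
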