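import Pool.Agent.Y694.BT.Examples

/-!
# The Poisson operators; the circle is atomless
-/

set_option autoImplicit false

open MeasureTheory Filter Topology
open Pool.Agent.Helper418.FE

namespace Pool.Agent.Y694.BT

/-- the mixing law of the Poisson kernel -/
noncomputable def nuP (r : ℝ) : Measure ℕ :=
  Measure.sum fun n => ENNReal.ofReal (cn r n) • Measure.dirac n

lemma nuP_prob {r : ℝ} (h0 : 0 ≤ r) (h1 : r < 1) : IsProbabilityMeasure (nuP r) := by
  refine ⟨?_⟩
  unfold nuP
  rw [Measure.sum_apply _ MeasurableSet.univ]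
  have h2 : ∀ n, (ENNReal.ofReal (cn r n) • Measure.dirac n : Measure ℕ) Set.univ =
      ENNReal.ofReal (cn r n) := by
    intro n
    rw [Measure.smul_apply, measure_univ, smul_eq_mul, mul_one]
  simp_rw [h2]
  rw [← ENNReal.ofReal_tsum_of_nonneg (fun n => cn_nonneg h0 n) (cn_hasSum h0 h1).summable,
    (cn_hasSum h0 h1).tsum_eq, ENNReal.ofReal_one]

lemma kR_le (n : ℕ) (x : Circ) : kR n x ≤ (n : ℝ) + 1 := by
  have hn : (0 : ℝ) < (n : ℝ) + 1 := by positivity
  rw [kR_eq, div_le_iff₀ hn, pow_two]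
  exact mul_le_mul (norm_S_le x n) (norm_S_le x n) (norm_nonneg _) hn.le

attribute [local irreducible] kR

lemma meas_kR : Measurable fun z : Circ × Circ × ℕ => kR z.2.2 (z.1 - z.2.1) := by
  have h1 : Measurable fun w : (Circ × Circ) × ℕ => kR w.2 (w.1.1 - w.1.2) := by
    refine measurable_from_prod_countable_left fun n => ?_
    exact ((kR_continuous n).comp (continuous_fst.sub continuous_snd)).measurable
  have h2 : Measurable fun z : Circ × Circ × ℕ => ((z.1, z.2.1), z.2.2) :=
    (measurable_fst.prodMk (measurable_fst.comp measurable_snd)).prodMk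
      (measurable_snd.comp measurable_snd)
  exact h1.comp h2

lemma joint_poi {r : ℝ} (h0 : 0 ≤ r) (h1 : r < 1) :
    IsJoint μ (nuP r) (fun (_ : Circ) (_ : ℕ) => (1 : ℝ))
      (fun x x' (n : ℕ) => kR n (x - x')) := by
  have := nuP_prob h0 h1
  refine ⟨fun n => cell_fej n, measurable_const, meas_kR, fun x => by simp⟩

lemma op_poi {r : ℝ} (h0 : 0 ≤ r) (h1 : r < 1) {f : Circ → ℂ} (hf : Integrable f μ) :
    op μ (nuP r) (fun x x' (n : ℕ) => kR n (x - x')) f = conv (poisson r) f := by
  have hP := nuP_prob h0 h1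
  funext x
  have hx : Measurable fun z : Circ × ℕ => (x, z) := measurable_const.prodMk measurable_id
  have hm : Measurable fun z : Circ × ℕ => kR z.2 (x - z.1) := meas_kR.comp hx
  have hi : Integrable (fun z : Circ × ℕ => (kR z.2 (x - z.1) : ℂ) * f z.1) (μ.prod (nuP r)) := by
    refine ⟨(Complex.measurable_ofReal.comp hm).aestronglyMeasurable.mul hf.1.comp_fst, ?_⟩
    have hbound : ∫⁻ z : Circ × ℕ, ‖(kR z.2 (x - z.1) : ℂ) * f z.1‖ₑ ∂(μ.prod (nuP r)) ≤
        ∫⁻ z : Circ × ℕ, ‖f z.1‖ₑ * ENNReal.ofReal ((z.2 : ℝ) + 1) ∂(μ.prod (nuP r)) := by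
      refine lintegral_mono fun z => ?_
      rw [enorm_mul, mul_comm]
      gcongr
      rw [← ofReal_norm, Complex.norm_real, Real.norm_of_nonneg (kR_nonneg _ _)]
      exact ENNReal.ofReal_le_ofReal (kR_le _ _)
    refine lt_of_le_of_lt hbound ?_
    have hfe : AEMeasurable (fun x => ‖f x‖ₑ) μ := hf.1.enorm
    have hge : AEMeasurable (fun n : ℕ => ENNReal.ofReal ((n : ℝ) + 1)) (nuP r) :=
      (measurable_of_countable _).aemeasurable
    rw [lintegral_prod_mul hfe hge]
    refine ENNReal.mul_lt_top hf.2 ?_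
    unfold nuP
    rw [lintegral_sum_measure]
    simp_rw [lintegral_smul_measure, lintegral_dirac, smul_eq_mul]
    have h2 : ∀ n : ℕ, ENNReal.ofReal (cn r n) * ENNReal.ofReal ((n : ℝ) + 1) =
        ENNReal.ofReal ((1 - r) ^ 2 * (((n : ℝ) + 1) ^ 2 * r ^ n)) := by
      intro n
      rw [← ENNReal.ofReal_mul (cn_nonneg h0 n)]
      congr 1
      unfold cn
      ring
    simp_rw [h2]
    rw [← ENNReal.ofReal_tsum_of_nonneg (fun n => by positivity)
      ((summable_pow2 h0 h1).mul_left _)]
    exact ENNReal.ofReal_lt_top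
  have e1 : op μ (nuP r) (fun x x' (n : ℕ) => kR n (x - x')) f x =
      ∫ n, conv (fejer n) f x ∂(nuP r) := by
    unfold op
    rw [integral_prod_symm _ hi]
    congr 1
    funext n
    rw [conv_fejer]
    congr 1
  have hi2 : Integrable (fun n => conv (fejer n) f x) (nuP r) := by
    have := hi.integral_prod_right
    refine this.congr (Eventually.of_forall fun n => ?_)
    simp only
    rw [conv_fejer]
    congr 1
  rw [e1]
  unfold nuP at hi2 ⊢
  have h3 := hasSum_integral_measure hi2
  simp_rw [integral_smul_measure, integral_dirac, ENNReal.toReal_ofReal (cn_nonneg h0 _)] at h3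
  exact h3.unique (conv_poisson_hasSum h0 h1 hf x)

theorem t_atl : StmAtl := by
  intro A hA hpos
  by_cases h1 : μ A = 0
  · exact absurd h1 hpos.ne'
  -- a small arc meets A in positive measure
  obtain ⟨n, hn⟩ := exists_nat_one_div_lt (show (0 : ℝ) < (μ A).toReal / 2 from by
    have := ENNReal.toReal_pos h1 (measure_ne_top _ _)
    linarith)
  have hr : (0 : ℝ) < 1 / ((n : ℝ) + 1) := by positivity
  obtain ⟨T, -, hTf, hT⟩ := (isCompact_univ (X := Circ)).elim_finite_subcover_image
    (b := Set.univ) (c := fun x : Circ => Metric.ball x (Real.pi * (1 / ((n : ℝ) + 1))))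
    (fun x _ => Metric.isOpen_ball) (fun x _ => by
      simp only [Set.mem_univ, Set.iUnion_true, Set.mem_iUnion]
      exact ⟨x, Metric.mem_ball_self (mul_pos Real.pi_pos hr)⟩)
  have hball : ∀ x : Circ, μ (Metric.ball x (Real.pi * (1 / ((n : ℝ) + 1)))) ≤
      ENNReal.ofReal (1 / ((n : ℝ) + 1)) := by
    intro x
    have h2 : μ (Metric.closedBall x (Real.pi * (1 / ((n : ℝ) + 1)))) =
        μ (Metric.closedBall (0 : Circ) (Real.pi * (1 / ((n : ℝ) + 1)))) := by
      have h3 : Metric.closedBall (0 : Circ) (Real.pi * (1 / ((n : ℝ) + 1))) =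
          (fun y => x + y) ⁻¹' Metric.closedBall x (Real.pi * (1 / ((n : ℝ) + 1))) := by
        ext y
        simp [Metric.mem_closedBall, dist_eq_norm]
      rw [h3, measure_preimage_add]
    refine (measure_mono Metric.ball_subset_closedBall).trans ?_
    rw [h2]
    have h4 := μ_arc (α := 1 / ((n : ℝ) + 1)) (by
      rw [div_le_one (by positivity)]
      have : (0 : ℝ) ≤ (n : ℝ) := Nat.cast_nonneg n
      linarith)
    unfold arc at h4
    exact h4.le
  by_contra hcon
  push Not at hcon
  have hzero : ∀ x ∈ T, μ (A ∩ Metric.ball x (Real.pi * (1 / ((n : ℝ) + 1)))) = 0 := by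
    intro x _
    by_contra hne
    have h5 := hcon (A ∩ Metric.ball x (Real.pi * (1 / ((n : ℝ) + 1)))) Set.inter_subset_left
      (hA.inter Metric.isOpen_ball.measurableSet) (pos_iff_ne_zero.2 hne)
    have h6 : μ A ≤ ENNReal.ofReal (1 / ((n : ℝ) + 1)) :=
      h5.trans ((measure_mono Set.inter_subset_right).trans (hball x))
    have h7 : (μ A).toReal ≤ 1 / ((n : ℝ) + 1) := ENNReal.toReal_le_of_le_ofReal hr.le h6
    have h8 := ENNReal.toReal_pos h1 (measure_ne_top _ _)
    linarith
  apply h1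
  have h9 : A ⊆ ⋃ x ∈ T, A ∩ Metric.ball x (Real.pi * (1 / ((n : ℝ) + 1))) := by
    intro y hy
    have h10 := hT (Set.mem_univ y)
    simp only [Set.mem_iUnion, exists_prop] at h10 ⊢
    obtain ⟨x, hx, hxy⟩ := h10
    exact ⟨x, hx, hy, hxy⟩
  exact measure_mono_null h9 ((measure_biUnion_null_iff hTf.countable).2 hzero)

end Pool.Agent.Y694.BT
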