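import Pool.Agent.Y694.BT.Stm

/-!
# Sierpinski's theorem for atomless probability measures
-/

set_option autoImplicit false

open MeasureTheory Filter Topology

namespace Pool.Agent.Y694.BT

universe u

section

variable {X : Type u} [MeasurableSpace X] {μ : Measure X} [IsProbabilityMeasure μ]

lemma small_aux (hμ : Atomless μ) {A : Set X} (hA : MeasurableSet A) (hpos : 0 < μ A) (n : ℕ) :
    ∃ B ⊆ A, MeasurableSet B ∧ 0 < μ B ∧ μ.real B * 2 ^ n ≤ μ.real A := by
  induction n with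
  | zero => exact ⟨A, subset_rfl, hA, hpos, by simp⟩
  | succ n ih =>
    obtain ⟨B, hBA, hB, hB0, hBn⟩ := ih
    obtain ⟨D, hDB, hD, hD0, hDlt⟩ := hμ B hB hB0
    have hlt : μ.real D < μ.real B :=
      (ENNReal.toReal_lt_toReal (measure_ne_top _ _) (measure_ne_top _ _)).2 hDlt
    by_cases h : μ.real D * 2 ≤ μ.real B
    · refine ⟨D, hDB.trans hBA, hD, hD0, ?_⟩
      calc μ.real D * 2 ^ (n + 1) = (μ.real D * 2) * 2 ^ n := by ring
        _ ≤ μ.real B * 2 ^ n := by gcongr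
        _ ≤ _ := hBn
    · push Not at h
      have hdiff : μ.real (B \ D) = μ.real B - μ.real D := measureReal_sdiff hDB hD
      refine ⟨B \ D, Set.sdiff_subset.trans hBA, hB.diff hD, ?_, ?_⟩
      · have : 0 < μ.real (B \ D) := by rw [hdiff]; linarith
        exact (ENNReal.toReal_pos_iff.1 this).1
      · calc μ.real (B \ D) * 2 ^ (n + 1) = (μ.real (B \ D) * 2) * 2 ^ n := by ring
          _ ≤ μ.real B * 2 ^ n := by
            gcongr
            rw [hdiff]; linarith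
          _ ≤ _ := hBn

lemma small (hμ : Atomless μ) {A : Set X} (hA : MeasurableSet A) (hpos : 0 < μ A) {ε : ℝ}
    (hε : 0 < ε) : ∃ B ⊆ A, MeasurableSet B ∧ 0 < μ.real B ∧ μ.real B ≤ ε := by
  obtain ⟨n, hn⟩ := pow_unbounded_of_one_lt (1 / ε) (one_lt_two (α := ℝ))
  obtain ⟨B, hBA, hB, hB0, hBn⟩ := small_aux hμ hA hpos n
  refine ⟨B, hBA, hB, ENNReal.toReal_pos hB0.ne' (measure_ne_top _ _), ?_⟩
  have h1 : μ.real A ≤ 1 := measureReal_le_one
  have h2 : 1 < 2 ^ n * ε := by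
    rwa [div_lt_iff₀ hε] at hn
  have h3 : (0 : ℝ) ≤ μ.real B := measureReal_nonneg
  by_contra hc
  push Not at hc
  have : 1 < μ.real B * 2 ^ n := by
    have : ε * 2 ^ n < μ.real B * 2 ^ n := by gcongr
    linarith
  linarith

lemma sier_real (hμ : Atomless μ) {E : Set X} (hE : MeasurableSet E) {c : ℝ} (hc0 : 0 ≤ c)
    (hc : c ≤ μ.real E) : ∃ F ⊆ E, MeasurableSet F ∧ μ.real F = c := by
  classical
  -- admissible sets
  let P : Type u := {F : Set X // F ⊆ E ∧ MeasurableSet F ∧ μ.real F ≤ c}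
  let V : P → Set ℝ := fun F => {r | ∃ G : P, F.1 ⊆ G.1 ∧ μ.real G.1 = r}
  have hVb : ∀ F, BddAbove (V F) := by
    intro F
    refine ⟨c, ?_⟩
    rintro r ⟨G, _, rfl⟩
    exact G.2.2.2
  have hVn : ∀ F, (V F).Nonempty := fun F => ⟨_, F, subset_rfl, rfl⟩
  have hstep : ∀ (F : P) (n : ℕ), ∃ G : P, F.1 ⊆ G.1 ∧ sSup (V F) ≤ μ.real G.1 + 1 / ((n : ℝ) + 1) := by
    intro F n
    have hlt : sSup (V F) - 1 / ((n : ℝ) + 1) < sSup (V F) := by
      have : (0 : ℝ) < 1 / ((n : ℝ) + 1) := by positivity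
      linarith
    obtain ⟨r, ⟨G, hG, rfl⟩, hr⟩ := exists_lt_of_lt_csSup (hVn F) hlt
    exact ⟨G, hG, by linarith⟩
  choose nx hnx1 hnx2 using hstep
  let F0 : P := ⟨∅, Set.empty_subset _, MeasurableSet.empty, by simpa using hc0⟩
  let S : ℕ → P := fun n => Nat.rec F0 (fun n F => nx F n) n
  have hS : ∀ n, S (n + 1) = nx (S n) n := fun n => rfl
  have hmono : Monotone fun n => (S n).1 := by
    refine monotone_nat_of_le_succ fun n => ?_
    rw [hS]
    exact hnx1 (S n) n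
  set U : Set X := ⋃ n, (S n).1 with hU
  have hUm : MeasurableSet U := MeasurableSet.iUnion fun n => (S n).2.2.1
  have hUE : U ⊆ E := Set.iUnion_subset fun n => (S n).2.1
  have htend : Tendsto (fun n => μ.real (S n).1) atTop (𝓝 (μ.real U)) := by
    have h1 := tendsto_measure_iUnion_atTop (μ := μ) hmono
    exact (ENNReal.tendsto_toReal (measure_ne_top _ _)).comp h1
  have hUc : μ.real U ≤ c := le_of_tendsto' htend fun n => (S n).2.2.2
  have hle : ∀ n, μ.real (S n).1 ≤ μ.real U := fun n =>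
    measureReal_mono (Set.subset_iUnion (fun n => (S n).1) n)
  refine ⟨U, hUE, hUm, le_antisymm hUc ?_⟩
  by_contra hcon
  push Not at hcon
  have hd : μ.real (E \ U) = μ.real E - μ.real U := measureReal_sdiff hUE hUm
  have hpos : 0 < μ (E \ U) := by
    have : 0 < μ.real (E \ U) := by rw [hd]; linarith
    exact (ENNReal.toReal_pos_iff.1 this).1
  obtain ⟨B, hBs, hB, hB0, hBe⟩ := small hμ (hE.diff hUm) hpos (sub_pos.2 hcon)
  have hdisj : Disjoint U B := by
    rw [Set.disjoint_left]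
    intro x hx hxB
    exact (hBs hxB).2 hx
  have hUB : μ.real (U ∪ B) = μ.real U + μ.real B := measureReal_union hdisj hB
  have hG : (U ∪ B) ⊆ E ∧ MeasurableSet (U ∪ B) ∧ μ.real (U ∪ B) ≤ c := by
    refine ⟨Set.union_subset hUE (hBs.trans Set.sdiff_subset), hUm.union hB, ?_⟩
    rw [hUB]; linarith
  have hkey : ∀ n : ℕ, μ.real B ≤ 1 / ((n : ℝ) + 1) := by
    intro n
    have h1 : μ.real (U ∪ B) ≤ sSup (V (S n)) := by
      refine le_csSup (hVb _) ⟨⟨_, hG⟩, ?_, rfl⟩
      exact (Set.subset_iUnion (fun n => (S n).1) n).trans Set.subset_union_left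
    have h2 := hnx2 (S n) n
    have h3 := hle (n + 1)
    rw [hS] at h3
    rw [hUB] at h1
    linarith
  have h4 : μ.real B ≤ 0 :=
    ge_of_tendsto' tendsto_one_div_add_atTop_nhds_zero_nat hkey
  linarith

end

theorem t_sie : StmSie.{u} := by
  intro X _ μ _ hμ E hE c hc
  have hc1 : c ≠ ⊤ := (hc.trans_lt (measure_lt_top μ E)).ne
  obtain ⟨F, hFE, hF, hFc⟩ := sier_real hμ hE (c := c.toReal) ENNReal.toReal_nonneg
    ((ENNReal.toReal_le_toReal hc1 (measure_ne_top _ _)).2 hc)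
  refine ⟨F, hFE, hF, ?_⟩
  exact (ENNReal.toReal_eq_toReal_iff' (measure_ne_top _ _) hc1).1 hFc

end Pool.Agent.Y694.BT
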