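import Pool.Agent.Y694.BT.Stm

/-!
# Pairwise independent sets converge weakly
-/

set_option autoImplicit false

open MeasureTheory Filter Topology

namespace Pool.Agent.Y694.BT

universe u

section

variable {X : Type u} [MeasurableSpace X] {μ : Measure X} [IsProbabilityMeasure μ]

/-- centred indicator function -/
noncomputable def cind (α : ℝ) (A : Set X) (x : X) : ℝ := A.indicator (fun _ => (1 : ℝ)) x - α

set_option linter.unusedSectionVars false

lemma cind_meas {α : ℝ} {A : Set X} (hA : MeasurableSet A) : Measurable (cind α A) :=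
  (measurable_const.indicator hA).sub measurable_const

lemma cind_le {α : ℝ} (h0 : 0 < α) (h1 : α < 1) (A : Set X) (x : X) : |cind α A x| ≤ 1 := by
  unfold cind
  by_cases h : x ∈ A
  · rw [Set.indicator_of_mem h, abs_le]; constructor <;> linarith
  · rw [Set.indicator_of_notMem h, abs_le]; constructor <;> linarith

lemma cind_int {α : ℝ} (h0 : 0 < α) (h1 : α < 1) {A : Set X} (hA : MeasurableSet A) :
    Integrable (cind α A) μ :=
  Integrable.of_bound (cind_meas hA).aestronglyMeasurable 1
    (Eventually.of_forall fun x => by rw [Real.norm_eq_abs]; exact cind_le h0 h1 A x)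

lemma int_ind {A : Set X} (hA : MeasurableSet A) :
    ∫ x, A.indicator (fun _ => (1 : ℝ)) x ∂μ = μ.real A := by
  rw [integral_indicator hA]
  simp

lemma real_of {A : Set X} {c : ℝ} (hc : 0 ≤ c) (h : μ A = ENNReal.ofReal c) : μ.real A = c := by
  rw [measureReal_def, h, ENNReal.toReal_ofReal hc]

lemma cind_mul {α : ℝ} (h0 : 0 < α) {A B : Set X} (hA : MeasurableSet A)
    (hB : MeasurableSet B) (mA : μ A = ENNReal.ofReal α) (mB : μ B = ENNReal.ofReal α) :
    ∫ x, cind α A x * cind α B x ∂μ = μ.real (A ∩ B) - α ^ 2 := by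
  have e1 : ∀ x, cind α A x * cind α B x = (A ∩ B).indicator (fun _ => (1 : ℝ)) x -
      α * A.indicator (fun _ => (1 : ℝ)) x - α * B.indicator (fun _ => (1 : ℝ)) x + α ^ 2 := by
    intro x
    unfold cind
    by_cases h1 : x ∈ A <;> by_cases h2 : x ∈ B <;>
      simp [h1, h2, Set.indicator] <;> ring
  have i1 : ∀ {S : Set X}, MeasurableSet S → Integrable (S.indicator (fun _ => (1 : ℝ))) μ :=
    fun hS => (integrable_const _).indicator hS
  simp_rw [e1]
  rw [integral_add, integral_sub, integral_sub, integral_const_mul, integral_const_mul,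
    int_ind hA, int_ind hB, int_ind (hA.inter hB), real_of h0.le mA, real_of h0.le mB]
  · simp; ring
  · exact i1 (hA.inter hB)
  · exact (i1 hA).const_mul _
  · exact (i1 (hA.inter hB)).sub ((i1 hA).const_mul _)
  · exact (i1 hB).const_mul _
  · exact ((i1 (hA.inter hB)).sub ((i1 hA).const_mul _)).sub ((i1 hB).const_mul _)
  · exact integrable_const _

/-- Bessel's inequality -/
lemma bessel {α : ℝ} (h0 : 0 < α) (h1 : α < 1) {A : ℕ → Set X} (hA : ∀ n, MeasurableSet (A n))
    (mA : ∀ n, μ (A n) = ENNReal.ofReal α)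
    (hI : ∀ i j, i ≠ j → μ (A i ∩ A j) = ENNReal.ofReal (α ^ 2)) {g : X → ℝ} {M : ℝ}
    (hg : Measurable g) (hM : ∀ x, |g x| ≤ M) (N : ℕ) :
    ∑ n ∈ Finset.range N, (∫ x, g x * cind α (A n) x ∂μ) ^ 2 ≤ α * (1 - α) * M ^ 2 := by
  set v := α * (1 - α) with hv
  have hv0 : 0 < v := mul_pos h0 (by linarith)
  set b : ℕ → ℝ := fun n => ∫ x, g x * cind α (A n) x ∂μ with hb
  have hM0 : 0 ≤ M := by
    obtain ⟨x⟩ : Nonempty X := by
      by_contra h
      rw [not_nonempty_iff] at h
      have := measure_univ (μ := μ)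
      rw [Set.univ_eq_empty_iff.2 h, measure_empty] at this
      exact zero_ne_one this
    exact (abs_nonneg _).trans (hM x)
  have hgi : Integrable g μ := Integrable.of_bound hg.aestronglyMeasurable M
    (Eventually.of_forall fun x => by rw [Real.norm_eq_abs]; exact hM x)
  have hgg : Integrable (fun x => g x * g x) μ :=
    Integrable.of_bound (hg.mul hg).aestronglyMeasurable (M * M)
      (Eventually.of_forall fun x => by
        rw [Real.norm_eq_abs, abs_mul]
        exact mul_le_mul (hM x) (hM x) (abs_nonneg _) hM0)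
  have hgc : ∀ n, Integrable (fun x => g x * cind α (A n) x) μ := fun n =>
    Integrable.of_bound (hg.mul (cind_meas (hA n))).aestronglyMeasurable (M * 1)
      (Eventually.of_forall fun x => by
        rw [Real.norm_eq_abs, abs_mul]
        exact mul_le_mul (hM x) (cind_le h0 h1 _ x) (abs_nonneg _) hM0)
  have hcc : ∀ i j, Integrable (fun x => cind α (A i) x * cind α (A j) x) μ := fun i j =>
    Integrable.of_bound ((cind_meas (hA i)).mul (cind_meas (hA j))).aestronglyMeasurable (1 * 1)
      (Eventually.of_forall fun x => by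
        rw [Real.norm_eq_abs, abs_mul]
        exact mul_le_mul (cind_le h0 h1 _ x) (cind_le h0 h1 _ x) (abs_nonneg _) zero_le_one)
  have hcij : ∀ i j, ∫ x, cind α (A i) x * cind α (A j) x ∂μ = if i = j then v else 0 := by
    intro i j
    rw [cind_mul h0 (hA i) (hA j) (mA i) (mA j)]
    split_ifs with h
    · rw [← h, Set.inter_self, real_of h0.le (mA i)]; ring
    · rw [real_of (by positivity) (hI i j h)]; ring
  have hgg2 : ∫ x, g x * g x ∂μ ≤ M ^ 2 := by
    calc ∫ x, g x * g x ∂μ ≤ ∫ x, M ^ 2 ∂μ := by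
          refine integral_mono hgg (integrable_const _) fun x => ?_
          simp only
          rw [← pow_two, ← sq_abs]
          exact pow_le_pow_left₀ (abs_nonneg _) (hM x) 2
      _ = M ^ 2 := by simp
  set s : X → ℝ := fun x => ∑ n ∈ Finset.range N, b n / v * cind α (A n) x with hs
  have hexp : ∀ x, (g x - s x) ^ 2 = g x * g x - 2 * ∑ n ∈ Finset.range N, b n / v * (g x * cind α (A n) x) +
      ∑ i ∈ Finset.range N, ∑ j ∈ Finset.range N, (b i / v * (b j / v)) * (cind α (A i) x * cind α (A j) x) := by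
    intro x
    have e1 : ∑ n ∈ Finset.range N, b n / v * (g x * cind α (A n) x) = g x * s x := by
      simp only [hs]
      rw [Finset.mul_sum]
      exact Finset.sum_congr rfl fun n _ => by ring
    have e2 : ∑ i ∈ Finset.range N, ∑ j ∈ Finset.range N,
        (b i / v * (b j / v)) * (cind α (A i) x * cind α (A j) x) = s x * s x := by
      simp only [hs]
      rw [Finset.sum_mul_sum]
      exact Finset.sum_congr rfl fun i _ => Finset.sum_congr rfl fun j _ => by ring
    rw [e1, e2]; ring
  have hint : ∫ x, (g x - s x) ^ 2 ∂μ = ∫ x, g x * g x ∂μ - (∑ n ∈ Finset.range N, b n ^ 2) / v := by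
    simp_rw [hexp]
    rw [integral_add, integral_sub, integral_const_mul, integral_finsetSum, integral_finsetSum]
    · have e3 : ∀ i ∈ Finset.range N, ∫ x, ∑ j ∈ Finset.range N,
          (b i / v * (b j / v)) * (cind α (A i) x * cind α (A j) x) ∂μ = b i ^ 2 / v := by
        intro i hi
        rw [integral_finsetSum]
        · simp_rw [integral_const_mul, hcij]
          simp only [mul_ite, mul_zero, Finset.sum_ite_eq, hi, if_true]
          field_simp
        · exact fun j _ => (hcc i j).const_mul _
      rw [Finset.sum_congr rfl e3]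
      simp_rw [integral_const_mul]
      have e4 : ∑ n ∈ Finset.range N, b n / v * ∫ x, g x * cind α (A n) x ∂μ =
          (∑ n ∈ Finset.range N, b n ^ 2) / v := by
        rw [Finset.sum_div]
        refine Finset.sum_congr rfl fun n _ => ?_
        change b n / v * b n = _
        ring
      rw [e4, ← Finset.sum_div]
      ring
    · exact fun i _ => integrable_finsetSum _ fun j _ => (hcc i j).const_mul _
    · exact fun i _ => (hgc i).const_mul _
    · exact hgg
    · exact (integrable_finsetSum _ fun i _ => (hgc i).const_mul _).const_mul _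
    · exact hgg.sub ((integrable_finsetSum _ fun i _ => (hgc i).const_mul _).const_mul _)
    · exact integrable_finsetSum _ fun i _ => integrable_finsetSum _ fun j _ =>
        (hcc i j).const_mul _
  have hnn : 0 ≤ ∫ x, (g x - s x) ^ 2 ∂μ := integral_nonneg fun x => sq_nonneg _
  rw [hint] at hnn
  have h5 : (∑ n ∈ Finset.range N, b n ^ 2) / v ≤ M ^ 2 := by linarith
  rw [div_le_iff₀ hv0] at h5
  linarith

lemma weak_bdd {α : ℝ} (h0 : 0 < α) (h1 : α < 1) {A : ℕ → Set X} (hA : ∀ n, MeasurableSet (A n))
    (mA : ∀ n, μ (A n) = ENNReal.ofReal α)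
    (hI : ∀ i j, i ≠ j → μ (A i ∩ A j) = ENNReal.ofReal (α ^ 2)) {g : X → ℝ} {M : ℝ}
    (hg : Measurable g) (hM : ∀ x, |g x| ≤ M) :
    Tendsto (fun n => ∫ x, g x * cind α (A n) x ∂μ) atTop (𝓝 0) := by
  have h := bessel h0 h1 hA mA hI hg hM
  have hs : Summable fun n => (∫ x, g x * cind α (A n) x ∂μ) ^ 2 :=
    summable_of_sum_range_le (fun n => sq_nonneg _) h
  have h2 := hs.tendsto_atTop_zero
  have h3 := (Real.continuous_sqrt.tendsto 0).comp h2
  rw [Real.sqrt_zero] at h3
  rw [tendsto_zero_iff_abs_tendsto_zero]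
  refine h3.congr fun n => ?_
  simp only [Function.comp_apply]
  rw [Real.sqrt_sq_eq_abs]

end

theorem t_weak : StmWeak.{u} := by
  intro X _ μ _ α h0 h1 A hA mA hI h hh
  have hc1 : ∀ n x, ‖cind α (A n) x‖ ≤ 1 := fun n x => by
    rw [Real.norm_eq_abs]; exact cind_le h0 h1 _ x
  have hmain : Tendsto (fun n => ∫ x, h x * cind α (A n) x ∂μ) atTop (𝓝 0) := by
    rw [Metric.tendsto_atTop]
    intro ε hε
    have hmem : MemLp h 1 μ := memLp_one_iff_integrable.2 hh
    obtain ⟨g, hgl, hgm⟩ := hmem.exists_simpleFunc_eLpNorm_sub_lt ENNReal.one_ne_top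
      (ε := ENNReal.ofReal (ε / 2)) (by
        rw [Ne, ENNReal.ofReal_eq_zero, not_le]; positivity)
    obtain ⟨M, hM⟩ := g.exists_forall_norm_le
    have hgi : Integrable g μ := memLp_one_iff_integrable.1 hgm
    have hlim := weak_bdd h0 h1 hA mA hI g.measurable (fun x => by
      rw [← Real.norm_eq_abs]; exact hM x)
    rw [Metric.tendsto_atTop] at hlim
    obtain ⟨N, hN⟩ := hlim (ε / 2) (by positivity)
    refine ⟨N, fun n hn => ?_⟩
    have h2 := hN n hn
    rw [dist_zero_right] at h2 ⊢
    have i1 : Integrable (fun x => h x * cind α (A n) x) μ :=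
      hh.mul_bdd (c := 1) (cind_meas (hA n)).aestronglyMeasurable (Eventually.of_forall (hc1 n))
    have i2 : Integrable (fun x => g x * cind α (A n) x) μ :=
      hgi.mul_bdd (c := 1) (cind_meas (hA n)).aestronglyMeasurable (Eventually.of_forall (hc1 n))
    have h3 : ‖∫ x, h x * cind α (A n) x ∂μ - ∫ x, g x * cind α (A n) x ∂μ‖ < ε / 2 := by
      rw [← integral_sub i1 i2]
      have h4 : ‖∫ x, (h x * cind α (A n) x - g x * cind α (A n) x) ∂μ‖ₑ < ENNReal.ofReal (ε / 2) := by
        refine lt_of_le_of_lt (enorm_integral_le_lintegral_enorm _) (lt_of_le_of_lt ?_ hgl)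
        rw [eLpNorm_one_eq_lintegral_enorm]
        refine lintegral_mono fun x => ?_
        rw [← sub_mul, enorm_mul, Pi.sub_apply]
        calc ‖h x - g x‖ₑ * ‖cind α (A n) x‖ₑ ≤ ‖h x - g x‖ₑ * 1 := by
              gcongr
              rw [← ofReal_norm, ← ENNReal.ofReal_one]
              exact ENNReal.ofReal_le_ofReal (hc1 n x)
          _ = _ := mul_one _
      rw [← ofReal_norm] at h4
      exact (ENNReal.ofReal_lt_ofReal_iff (by positivity)).1 h4
    calc ‖∫ x, h x * cind α (A n) x ∂μ‖
        = ‖(∫ x, h x * cind α (A n) x ∂μ - ∫ x, g x * cind α (A n) x ∂μ) +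
            ∫ x, g x * cind α (A n) x ∂μ‖ := by congr 1; ring
      _ ≤ _ := norm_add_le _ _
      _ < ε / 2 + ε / 2 := add_lt_add h3 h2
      _ = ε := by ring
  have h5 := hmain.add_const (α * ∫ x, h x ∂μ)
  rw [zero_add] at h5
  refine h5.congr fun n => ?_
  have i1 : Integrable (fun x => h x * cind α (A n) x) μ :=
    hh.mul_bdd (c := 1) (cind_meas (hA n)).aestronglyMeasurable (Eventually.of_forall (hc1 n))
  rw [← integral_const_mul, ← integral_add i1 (hh.const_mul _), ← integral_indicator (hA n)]
  refine integral_congr_ae (Eventually.of_forall fun x => ?_)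
  simp only [cind]
  by_cases hx : x ∈ A n
  · simp only [Set.indicator_of_mem hx]; ring
  · simp only [Set.indicator_of_notMem hx]; ring

end Pool.Agent.Y694.BT
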