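import Pool.Agent.Y694.BT.CellIneq
import Pool.Agent.Y694.BT.Sier
import Pool.Agent.Y694.BT.Ind
import Pool.Agent.Y694.BT.Weak
import Pool.Agent.Y694.BT.Low
import Pool.Agent.Y694.BT.Poi

/-!
# Assembly
-/

set_option autoImplicit false

open MeasureTheory Filter Topology
open scoped ComplexOrder
open Pool.Agent.Helper418.FE

namespace Pool.Agent.Y694.BT

universe u v

section

variable {X : Type u} {Y : Type v} [MeasurableSpace X] [MeasurableSpace Y] {μ : Measure X}
  {ν : Measure Y} [IsProbabilityMeasure μ] [IsProbabilityMeasure ν] {t : X → Y → ℝ}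
  {k : X → X → Y → ℝ}

theorem upper (hJ : IsJoint μ ν t k) {p : ℝ} (hp : 1 < p) (f : X → ℂ)
    (hf : MemLp f (ENNReal.ofReal p) μ) :
    eLpNorm (fun x => f x - op μ ν k f x) (ENNReal.ofReal p) μ ≤
      ENNReal.ofReal (C p) * eLpNorm f (ENNReal.ofReal p) μ :=
  t_upc t_cf (t_upr t_cf t_ci) X Y μ ν t k hJ p hp f hf

theorem norm_eq (hJ : IsJoint μ ν t k) (hμ : Atomless μ) {p : ℝ} (hp : 1 < p) :
    IsNormIdSub μ (op μ ν k) p (C p) := by
  refine ⟨⟨by linarith [one_le_C hp], fun f hf => upper hJ hp f hf⟩, ?_⟩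
  rintro c ⟨hc, h⟩
  exact t_low t_cf (t_ind (t_spl t_sie)) t_weak X Y μ ν t k hJ hμ p hp c hc h

/-- the classical case: matrices of size one -/
theorem joint_one (ht : Measurable fun z : X × Y => t z.1 z.2) (h0 : ∀ x y, 0 ≤ t x y)
    (hx : ∀ x, ∫ y, t x y ∂ν = 1) (hy : ∀ y, ∫ x, t x y ∂μ = 1) :
    IsJoint μ ν t (fun x x' y => t x y * t x' y) := by
  refine ⟨fun y => ?_, ht, ?_, hx⟩
  · refine ⟨1, fun x => Matrix.diagonal fun _ => (t x y : ℂ), one_pos, ?_, ?_, ?_, ?_, ?_⟩
    · intro i j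
      rw [Subsingleton.elim i j]
      simp only [Matrix.diagonal_apply_eq]
      exact Complex.measurable_ofReal.comp (ht.comp (measurable_id.prodMk measurable_const))
    · intro x
      exact Matrix.PosSemidef.diagonal fun _ => Complex.zero_le_real.2 (h0 x y)
    · intro i j
      rw [Subsingleton.elim i j, if_pos rfl]
      simp only [Matrix.diagonal_apply_eq]
      rw [integral_complex_ofReal, hy]
      simp
    · intro x
      simp [Matrix.trace_diagonal]
    · intro x x'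
      rw [Matrix.diagonal_mul_diagonal, Matrix.trace_diagonal]
      simp
  · have h1 : Measurable fun z : X × X × Y => t z.1 z.2.2 :=
      ht.comp (measurable_fst.prodMk (measurable_snd.comp measurable_snd))
    have h2 : Measurable fun z : X × X × Y => t z.2.1 z.2.2 := ht.comp measurable_snd
    exact h1.mul h2

end

lemma transfer {Y : Type v} [MeasurableSpace Y] {ν : Measure Y}
    {k : Circ → Circ → Y → ℝ} {K : Circ → ℂ}
    (h : ∀ f : Circ → ℂ, Integrable f Pool.Agent.Helper418.FE.μ →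
      op Pool.Agent.Helper418.FE.μ ν k f = conv K f) {p N : ℝ} (hp : 1 < p)
    (hN : IsNormIdSub Pool.Agent.Helper418.FE.μ (op Pool.Agent.Helper418.FE.μ ν k) p N) :
    IsNormIdSubConv K p N := by
  have hset : {c : ℝ | 0 ≤ c ∧ ∀ f : Circ → ℂ,
      MemLp f (ENNReal.ofReal p) Pool.Agent.Helper418.FE.μ →
      eLpNorm (fun x => f x - conv K f x) (ENNReal.ofReal p) Pool.Agent.Helper418.FE.μ
        ≤ ENNReal.ofReal c * eLpNorm f (ENNReal.ofReal p) Pool.Agent.Helper418.FE.μ} =
      {c : ℝ | 0 ≤ c ∧ ∀ f : Circ → ℂ,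
      MemLp f (ENNReal.ofReal p) Pool.Agent.Helper418.FE.μ →
      eLpNorm (fun x => f x - op Pool.Agent.Helper418.FE.μ ν k f x) (ENNReal.ofReal p)
        Pool.Agent.Helper418.FE.μ
        ≤ ENNReal.ofReal c * eLpNorm f (ENNReal.ofReal p) Pool.Agent.Helper418.FE.μ} := by
    ext c
    constructor
    · rintro ⟨h1, h2⟩
      refine ⟨h1, fun f hf => ?_⟩
      rw [h _ (memLp_integrable hp hf)]
      exact h2 f hf
    · rintro ⟨h1, h2⟩
      refine ⟨h1, fun f hf => ?_⟩
      have h3 := h2 f hf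
      rwa [h _ (memLp_integrable hp hf)] at h3
  unfold IsNormIdSubConv
  rw [hset]
  exact hN

theorem norm_kS {m : ℕ} (hm : 0 < m) (s : Fin m → ℤ) (hs : Function.Injective s) {p : ℝ}
    (hp : 1 < p) : IsNormIdSubConv (fun x => (kS s x : ℂ)) p (C p) :=
  transfer (fun _ hf => op_dirac (kS_continuous s) hf) hp (norm_eq (joint_kS hm s hs) t_atl hp)

theorem norm_fej (n : ℕ) {p : ℝ} (hp : 1 < p) : IsNormIdSubConv (fejer n) p (C p) := by
  have h := norm_kS (Nat.succ_pos n) (fun i : Fin (n + 1) => (i : ℤ))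
    (fun i j h => by
      have h2 : ((i : ℕ) : ℤ) = ((j : ℕ) : ℤ) := h
      exact Fin.ext (by exact_mod_cast h2)) hp
  have h2 : (fun x => (kS (fun i : Fin (n + 1) => (i : ℤ)) x : ℂ)) = fejer n := by
    funext x
    rw [kS_range, fejer_eq]
  rwa [h2] at h

theorem norm_poi {r : ℝ} (h0 : 0 ≤ r) (h1 : r < 1) {p : ℝ} (hp : 1 < p) :
    IsNormIdSubConv (poisson r) p (C p) := by
  have := nuP_prob h0 h1
  exact transfer (fun _ hf => op_poi h0 h1 hf) hp (norm_eq (joint_poi h0 h1) t_atl hp)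

end Pool.Agent.Y694.BT
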