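import Pool.Agent.Y694.BT.Defs

/-!
# Statements of the steps
-/

set_option autoImplicit false

open MeasureTheory Filter Topology
open Pool.Agent.Helper418.FE

namespace Pool.Agent.Y694.BT

universe u v

/-- Step SIE (Sierpinski): subsets of prescribed measure. -/
def StmSie : Prop :=
  ∀ (X : Type u) [MeasurableSpace X] (μ : Measure X) [IsProbabilityMeasure μ], Atomless μ →
    ∀ E : Set X, MeasurableSet E → ∀ c : ENNReal, c ≤ μ E →
      ∃ F ⊆ E, MeasurableSet F ∧ μ F = c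

/-- Step SPL: sets which split all fibres of a countable partition in the same ratio. -/
def StmSpl : Prop :=
  ∀ (X : Type u) [MeasurableSpace X] (μ : Measure X) [IsProbabilityMeasure μ], Atomless μ →
    ∀ α : ℝ, 0 < α → α < 1 → ∀ c : X → ℕ, Measurable c →
      ∃ A : Set X, MeasurableSet A ∧ ∀ B : Set ℕ, μ (A ∩ c ⁻¹' B) = ENNReal.ofReal α * μ (c ⁻¹' B)

/-- Step IND: a sequence of pairwise independent sets of measure `α`. -/
def StmInd : Prop :=
  ∀ (X : Type u) [MeasurableSpace X] (μ : Measure X) [IsProbabilityMeasure μ], Atomless μ →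
    ∀ α : ℝ, 0 < α → α < 1 →
      ∃ A : ℕ → Set X, (∀ n, MeasurableSet (A n)) ∧ (∀ n, μ (A n) = ENNReal.ofReal α) ∧
        ∀ i j, i ≠ j → μ (A i ∩ A j) = ENNReal.ofReal (α ^ 2)

/-- Step WEAK: pairwise independent sets of measure `α` converge weakly to `α`. -/
def StmWeak : Prop :=
  ∀ (X : Type u) [MeasurableSpace X] (μ : Measure X) [IsProbabilityMeasure μ] (α : ℝ), 0 < α →
    α < 1 → ∀ A : ℕ → Set X, (∀ n, MeasurableSet (A n)) → (∀ n, μ (A n) = ENNReal.ofReal α) →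
      (∀ i j, i ≠ j → μ (A i ∩ A j) = ENNReal.ofReal (α ^ 2)) →
      ∀ h : X → ℝ, Integrable h μ →
        Tendsto (fun n => ∫ x in A n, h x ∂μ) atTop (𝓝 (α * ∫ x, h x ∂μ))

/-- The facts about a cell which are used later. -/
structure CellFacts {X : Type u} [MeasurableSpace X] (μ : Measure X) (t : X → ℝ)
    (k : X → X → ℝ) : Prop where
  t_nonneg : ∀ x, 0 ≤ t x
  t_meas : Measurable t
  t_int : Integrable t μ
  t_one : ∫ x, t x ∂μ = 1
  k_nonneg : ∀ x x', 0 ≤ k x x'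
  k_symm : ∀ x x', k x x' = k x' x
  k_zero : ∀ x, t x = 0 → ∀ x', k x x' = 0
  k_int : ∀ x', Integrable (fun x => k x x') μ
  k_marg : ∀ x', ∫ x, k x x' ∂μ = t x'

/-- Step CF: elementary facts about cells. -/
def StmCF : Prop :=
  ∀ (X : Type u) [MeasurableSpace X] (μ : Measure X) [IsProbabilityMeasure μ] (t : X → ℝ)
    (k : X → X → ℝ), IsCell μ t k → CellFacts μ t k

/-- Step CI: the inequality for one cell, for real functions. -/
def StmCI : Prop :=
  ∀ (X : Type u) [MeasurableSpace X] (μ : Measure X) [IsProbabilityMeasure μ] (t : X → ℝ)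
    (k : X → X → ℝ), IsCell μ t k → ∀ p : ℝ, 1 < p → ∀ f : X → ℝ, Measurable f →
      Integrable (fun x => t x * f x) μ →
      ∫⁻ x, ENNReal.ofReal (t x * |f x - (∫ x', k x x' * f x' ∂μ) / t x| ^ p) ∂μ ≤
        ENNReal.ofReal (C p ^ p) * ∫⁻ x, ENNReal.ofReal (t x * |f x| ^ p) ∂μ

/-- Step UPR: the upper bound for real measurable functions. -/
def StmUpR : Prop :=
  ∀ (X : Type u) (Y : Type v) [MeasurableSpace X] [MeasurableSpace Y] (μ : Measure X)
    (ν : Measure Y) [IsProbabilityMeasure μ] [IsProbabilityMeasure ν] (t : X → Y → ℝ)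
    (k : X → X → Y → ℝ), IsJoint μ ν t k → ∀ p : ℝ, 1 < p → ∀ f : X → ℝ, Measurable f →
      MemLp f (ENNReal.ofReal p) μ →
      ∫⁻ x, ENNReal.ofReal (|f x - ∫ z : X × Y, k x z.1 z.2 * f z.1 ∂(μ.prod ν)| ^ p) ∂μ ≤
        ENNReal.ofReal (C p ^ p) * ∫⁻ x, ENNReal.ofReal (|f x| ^ p) ∂μ

/-- Step UPC: the upper bound. -/
def StmUp : Prop :=
  ∀ (X : Type u) (Y : Type v) [MeasurableSpace X] [MeasurableSpace Y] (μ : Measure X)
    (ν : Measure Y) [IsProbabilityMeasure μ] [IsProbabilityMeasure ν] (t : X → Y → ℝ)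
    (k : X → X → Y → ℝ), IsJoint μ ν t k → ∀ p : ℝ, 1 < p → ∀ f : X → ℂ,
      MemLp f (ENNReal.ofReal p) μ →
      eLpNorm (fun x => f x - op μ ν k f x) (ENNReal.ofReal p) μ ≤
        ENNReal.ofReal (C p) * eLpNorm f (ENNReal.ofReal p) μ

/-- Step LOW: the lower bound on atomless spaces. -/
def StmLow : Prop :=
  ∀ (X : Type u) (Y : Type v) [MeasurableSpace X] [MeasurableSpace Y] (μ : Measure X)
    (ν : Measure Y) [IsProbabilityMeasure μ] [IsProbabilityMeasure ν] (t : X → Y → ℝ)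
    (k : X → X → Y → ℝ), IsJoint μ ν t k → Atomless μ → ∀ p : ℝ, 1 < p → ∀ c : ℝ, 0 ≤ c →
      (∀ f : X → ℂ, MemLp f (ENNReal.ofReal p) μ →
        eLpNorm (fun x => f x - op μ ν k f x) (ENNReal.ofReal p) μ
          ≤ ENNReal.ofReal c * eLpNorm f (ENNReal.ofReal p) μ) → C p ≤ c

/-- Step FEJ: the Fejér operators are of this form. -/
def StmFej : Prop :=
  ∀ n : ℕ, ∃ (t : Circ → Unit → ℝ) (k : Circ → Circ → Unit → ℝ),
    IsJoint Pool.Agent.Helper418.FE.μ (Measure.dirac ()) t k ∧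
    ∀ f : Circ → ℂ, Integrable f Pool.Agent.Helper418.FE.μ →
      op Pool.Agent.Helper418.FE.μ (Measure.dirac ()) k f = conv (fejer n) f

/-- Step POI: the Poisson operators are of this form. -/
def StmPoi : Prop :=
  ∀ r : ℝ, 0 ≤ r → r < 1 → ∃ (ν : Measure ℕ) (_ : IsProbabilityMeasure ν) (t : Circ → ℕ → ℝ)
    (k : Circ → Circ → ℕ → ℝ),
    IsJoint Pool.Agent.Helper418.FE.μ ν t k ∧
    ∀ f : Circ → ℂ, Integrable f Pool.Agent.Helper418.FE.μ →
      op Pool.Agent.Helper418.FE.μ ν k f = conv (poisson r) f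

/-- Step ATL: the circle is atomless. -/
def StmAtl : Prop := Atomless Pool.Agent.Helper418.FE.μ

end Pool.Agent.Y694.BT
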