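import Pool.Agent.Y694.BT.Upper

/-!
# The upper bound for complex functions
-/

set_option autoImplicit false

open MeasureTheory Filter Topology
open Pool.Agent.Helper418.FE

namespace Pool.Agent.Y694.BT

universe u v

section

set_option linter.unusedSectionVars false

variable {X : Type u} [MeasurableSpace X] {μ : Measure X} [IsProbabilityMeasure μ]

lemma rotate_intX {p : ℝ} (hp : 1 < p) {F : X → ℂ} (hF : AEStronglyMeasurable F μ) :
    ∫⁻ s, ∫⁻ x, ‖(e 1 s * F x).re‖ₑ ^ p ∂μ ∂(Pool.Agent.Helper418.FE.μ) =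
      cp p * ∫⁻ x, ‖F x‖ₑ ^ p ∂μ := by
  rw [lintegral_lintegral_swap]
  · simp_rw [rotate hp]
    rw [lintegral_const_mul' _ _ (cp_ne_top hp)]
  · have h1 : AEStronglyMeasurable (fun z : Circ × X => F z.2)
        ((Pool.Agent.Helper418.FE.μ).prod μ) := hF.comp_snd
    have h2 : AEStronglyMeasurable (fun z : Circ × X => e 1 z.1)
        ((Pool.Agent.Helper418.FE.μ).prod μ) :=
      ((e_continuous 1).aestronglyMeasurable (μ := Pool.Agent.Helper418.FE.μ)).comp_fst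
    exact ((Complex.continuous_re.comp_aestronglyMeasurable (h2.mul h1)).enorm).pow_const p

lemma eLpNorm_eqX {p : ℝ} (hp : 1 < p) (F : X → ℂ) :
    eLpNorm F (ENNReal.ofReal p) μ = (∫⁻ x, ‖F x‖ₑ ^ p ∂μ) ^ (1 / p) := by
  rw [eLpNorm_eq_lintegral_rpow_enorm_toReal (by simp; linarith) ENNReal.ofReal_ne_top,
    ENNReal.toReal_ofReal (by linarith)]

lemma eLpNorm_le_ofX {p : ℝ} (hp : 1 < p) {F G : X → ℂ}
    (h : ∫⁻ x, ‖F x‖ₑ ^ p ∂μ ≤ ENNReal.ofReal (C p ^ p) * ∫⁻ x, ‖G x‖ₑ ^ p ∂μ) :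
    eLpNorm F (ENNReal.ofReal p) μ ≤ ENNReal.ofReal (C p) * eLpNorm G (ENNReal.ofReal p) μ := by
  have hp0 : 0 < p := by linarith
  have hC0 : 0 ≤ C p := by linarith [one_le_C hp]
  rw [eLpNorm_eqX hp, eLpNorm_eqX hp]
  calc (∫⁻ x, ‖F x‖ₑ ^ p ∂μ) ^ (1 / p)
      ≤ (ENNReal.ofReal (C p ^ p) * ∫⁻ x, ‖G x‖ₑ ^ p ∂μ) ^ (1 / p) :=
        ENNReal.rpow_le_rpow h (by positivity)
    _ = ENNReal.ofReal (C p) * (∫⁻ x, ‖G x‖ₑ ^ p ∂μ) ^ (1 / p) := by
        rw [ENNReal.mul_rpow_of_nonneg _ _ (by positivity)]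
        congr 1
        rw [ENNReal.ofReal_rpow_of_nonneg (by positivity) (by positivity), ← Real.rpow_mul hC0]
        congr 1
        have : p * (1 / p) = 1 := by field_simp
        rw [this, Real.rpow_one]

end

section

variable {X : Type u} {Y : Type v} [MeasurableSpace X] [MeasurableSpace Y] {μ : Measure X}
  {ν : Measure Y} [IsProbabilityMeasure μ] [IsProbabilityMeasure ν] {t : X → Y → ℝ}
  {k : X → X → Y → ℝ}

set_option linter.unusedSectionVars false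

lemma op_congr {f g : X → ℂ} (h : f =ᵐ[μ] g) (x : X) : op μ ν k f x = op μ ν k g x := by
  unfold op
  refine integral_congr_ae ?_
  have h1 : (fun z : X × Y => f z.1) =ᵐ[μ.prod ν] fun z : X × Y => g z.1 :=
    Measure.quasiMeasurePreserving_fst.ae_eq_comp h
  filter_upwards [h1] with z hz
  rw [hz]

lemma op_meas (hJ : IsJoint μ ν t k) {f : X → ℂ} (hf : Measurable f) :
    StronglyMeasurable (op μ ν k f) := by
  have hk := hJ.meas_k
  have h1 : StronglyMeasurable fun w : X × (X × Y) => (k w.1 w.2.1 w.2.2 : ℂ) * f w.2.1 := by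
    refine (Measurable.mul ?_ (hf.comp (measurable_fst.comp measurable_snd))).stronglyMeasurable
    exact Complex.measurable_ofReal.comp hk
  exact h1.integral_prod_right (ν := μ.prod ν)

theorem up_meas (hCF : StmCF.{u}) (hU : StmUpR.{u,v}) (hJ : IsJoint μ ν t k) {p : ℝ} (hp : 1 < p)
    {f : X → ℂ} (hf : Measurable f) (hfp : MemLp f (ENNReal.ofReal p) μ) :
    ∫⁻ x, ‖f x - op μ ν k f x‖ₑ ^ p ∂μ ≤ ENNReal.ofReal (C p ^ p) * ∫⁻ x, ‖f x‖ₑ ^ p ∂μ := by
  have hp0 : 0 ≤ p := by linarith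
  have hfi : Integrable f μ := hfp.integrable (by
    rw [← ENNReal.ofReal_one]
    exact ENNReal.ofReal_le_ofReal hp.le)
  set Tf : X → ℂ := fun x => f x - op μ ν k f x with hTf
  have hTm : AEStronglyMeasurable Tf μ :=
    hf.aestronglyMeasurable.sub (op_meas hJ hf).aestronglyMeasurable
  have hint := ae_int hCF hJ hf.stronglyMeasurable hfi.2.ne
  have hkey : ∀ s, ∫⁻ x, ‖(e 1 s * Tf x).re‖ₑ ^ p ∂μ ≤
      ENNReal.ofReal (C p ^ p) * ∫⁻ x, ‖(e 1 s * f x).re‖ₑ ^ p ∂μ := by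
    intro s
    have hft : MemLp (fun x => (e 1 s * f x).re) (ENNReal.ofReal p) μ :=
      (hfp.const_mul (e 1 s)).re
    have hfm : Measurable fun x => (e 1 s * f x).re :=
      Complex.measurable_re.comp (hf.const_mul _)
    have h1 := hU X Y μ ν t k hJ p hp _ hfm hft
    have e1 : ∀ (a : ℝ), ‖a‖ₑ ^ p = ENNReal.ofReal (|a| ^ p) := by
      intro a
      rw [enorm_rpow _ hp0, Real.norm_eq_abs]
    simp_rw [e1]
    refine le_trans (le_of_eq ?_) h1
    refine lintegral_congr_ae ?_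
    filter_upwards [hint] with x hx
    congr 3
    simp only [hTf]
    rw [mul_sub, Complex.sub_re]
    congr 1
    unfold op
    rw [← integral_const_mul]
    have hx' : Integrable (fun z : X × Y => (k x z.1 z.2 : ℂ) * f z.1) (μ.prod ν) := by
      refine hx.congr (Eventually.of_forall fun z => ?_)
      simp only
      rw [Complex.real_smul]
    have h3 := integral_re (f := fun z : X × Y => e 1 s * ((k x z.1 z.2 : ℂ) * f z.1))
      (μ := μ.prod ν) (𝕜 := ℂ) (hx'.const_mul _)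
    simp only [RCLike.re_eq_complex_re] at h3
    rw [← h3]
    congr 1
    funext z
    have : e 1 s * ((k x z.1 z.2 : ℂ) * f z.1) = (k x z.1 z.2 : ℂ) * (e 1 s * f z.1) := by ring
    rw [this, Complex.re_ofReal_mul]
  have h4 : cp p * ∫⁻ x, ‖Tf x‖ₑ ^ p ∂μ ≤
      cp p * (ENNReal.ofReal (C p ^ p) * ∫⁻ x, ‖f x‖ₑ ^ p ∂μ) := by
    rw [← rotate_intX hp hTm]
    calc ∫⁻ s, ∫⁻ x, ‖(e 1 s * Tf x).re‖ₑ ^ p ∂μ ∂(Pool.Agent.Helper418.FE.μ)
        ≤ ∫⁻ s, ENNReal.ofReal (C p ^ p) * ∫⁻ x, ‖(e 1 s * f x).re‖ₑ ^ p ∂μ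
            ∂(Pool.Agent.Helper418.FE.μ) := lintegral_mono hkey
      _ = ENNReal.ofReal (C p ^ p) * ∫⁻ s, ∫⁻ x, ‖(e 1 s * f x).re‖ₑ ^ p ∂μ
            ∂(Pool.Agent.Helper418.FE.μ) := by
          rw [lintegral_const_mul' _ _ ENNReal.ofReal_ne_top]
      _ = ENNReal.ofReal (C p ^ p) * (cp p * ∫⁻ x, ‖f x‖ₑ ^ p ∂μ) := by
          rw [rotate_intX hp hf.aestronglyMeasurable]
      _ = _ := by ring
  exact (ENNReal.mul_le_mul_iff_right (cp_ne_zero hp) (cp_ne_top hp)).mp h4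

end

theorem t_upc : StmCF.{u} → StmUpR.{u,v} → StmUp.{u,v} := by
  intro hCF hU X Y _ _ μ ν _ _ t k hJ p hp f hf
  set g : X → ℂ := hf.1.mk f with hg
  have hfg : f =ᵐ[μ] g := hf.1.ae_eq_mk
  have hgm : Measurable g := hf.1.stronglyMeasurable_mk.measurable
  have hgp : MemLp g (ENNReal.ofReal p) μ := hf.ae_eq hfg
  have h1 := up_meas hCF hU hJ hp hgm hgp
  have h2 := eLpNorm_le_ofX hp h1
  rw [eLpNorm_congr_ae hfg]
  refine le_trans (le_of_eq (eLpNorm_congr_ae ?_)) h2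
  filter_upwards [hfg] with x hx
  rw [hx, op_congr hfg]

end Pool.Agent.Y694.BT
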