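import Pool.Agent.Y694.BT.Cell
import Pool.Agent.Helper418.FE4

/-!
# The upper bound for real functions
-/

set_option autoImplicit false

open MeasureTheory Filter Topology
open Pool.Agent.Helper418.FE

namespace Pool.Agent.Y694.BT

universe u v w

section Facts

set_option linter.unusedSectionVars false

variable {X : Type u} {Y : Type v} [MeasurableSpace X] [MeasurableSpace Y] {μ : Measure X}
  {ν : Measure Y} [IsProbabilityMeasure μ] [IsProbabilityMeasure ν] {t : X → Y → ℝ}
  {k : X → X → Y → ℝ}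

lemma facts (hCF : StmCF.{u}) (hJ : IsJoint μ ν t k) (y : Y) :
    CellFacts μ (fun x => t x y) (fun x x' => k x x' y) := hCF X μ _ _ (hJ.cell y)

lemma t_nn (hCF : StmCF.{u}) (hJ : IsJoint μ ν t k) (x : X) (y : Y) : 0 ≤ t x y :=
  (facts hCF hJ y).t_nonneg x

lemma k_nn (hCF : StmCF.{u}) (hJ : IsJoint μ ν t k) (x x' : X) (y : Y) : 0 ≤ k x x' y :=
  (facts hCF hJ y).k_nonneg x x'

omit [IsProbabilityMeasure μ] [IsProbabilityMeasure ν] in
lemma t_int (hJ : IsJoint μ ν t k) (x : X) : Integrable (t x) ν := by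
  by_contra h
  have h1 := hJ.one x
  rw [integral_undef h] at h1
  exact zero_ne_one h1

lemma lint_t (hCF : StmCF.{u}) (hJ : IsJoint μ ν t k) (x : X) :
    ∫⁻ y, ENNReal.ofReal (t x y) ∂ν = 1 := by
  rw [← ofReal_integral_eq_lintegral_ofReal (t_int hJ x)
    (Eventually.of_forall fun y => t_nn hCF hJ x y), hJ.one, ENNReal.ofReal_one]

lemma lint_k (hCF : StmCF.{u}) (hJ : IsJoint μ ν t k) (x' : X) (y : Y) :
    ∫⁻ x, ENNReal.ofReal (k x x' y) ∂μ = ENNReal.ofReal (t x' y) := by
  have hF := facts hCF hJ y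
  rw [← ofReal_integral_eq_lintegral_ofReal (hF.k_int x')
    (Eventually.of_forall fun x => k_nn hCF hJ x x' y), hF.k_marg]

lemma lint_kg (hCF : StmCF.{u}) (hJ : IsJoint μ ν t k) {g : X → ENNReal} (hg : Measurable g) :
    ∫⁻ x, ∫⁻ z : X × Y, ENNReal.ofReal (k x z.1 z.2) * g z.1 ∂(μ.prod ν) ∂μ = ∫⁻ x, g x ∂μ := by
  have hk := hJ.meas_k
  have ht := hJ.meas_t
  rw [lintegral_lintegral_swap]
  · have h1 : ∀ z : X × Y, ∫⁻ x, ENNReal.ofReal (k x z.1 z.2) * g z.1 ∂μ =
        ENNReal.ofReal (t z.1 z.2) * g z.1 := by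
      intro z
      rw [lintegral_mul_const, lint_k hCF hJ]
      exact (hk.comp (measurable_id.prodMk measurable_const)).ennreal_ofReal
    simp_rw [h1]
    rw [lintegral_prod]
    · refine lintegral_congr fun x => ?_
      dsimp only
      rw [lintegral_mul_const, lint_t hCF hJ, one_mul]
      exact (ht.comp (measurable_const.prodMk measurable_id)).ennreal_ofReal
    · exact (ht.ennreal_ofReal.mul (hg.comp measurable_fst)).aemeasurable
  · exact (hk.ennreal_ofReal.mul (hg.comp (measurable_fst.comp measurable_snd))).aemeasurable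

lemma ae_int {E : Type w} [NormedAddCommGroup E] [NormedSpace ℝ E] (hCF : StmCF.{u})
    (hJ : IsJoint μ ν t k) {f : X → E} (hf : StronglyMeasurable f)
    (hfin : ∫⁻ x, ‖f x‖ₑ ∂μ ≠ ⊤) :
    ∀ᵐ x ∂μ, Integrable (fun z : X × Y => k x z.1 z.2 • f z.1) (μ.prod ν) := by
  have hk := hJ.meas_k
  have h1 := lint_kg hCF hJ hf.enorm
  rw [← h1] at hfin
  have h2 := ae_lt_top' ?_ hfin
  · filter_upwards [h2] with x hx
    refine ⟨?_, ?_⟩
    · refine AEStronglyMeasurable.smul ?_ ?_
      · exact (hk.comp (measurable_const.prodMk measurable_id)).aestronglyMeasurable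
      · exact (hf.comp_measurable measurable_fst).aestronglyMeasurable
    · refine lt_of_le_of_lt (le_of_eq ?_) hx
      refine lintegral_congr fun z => ?_
      rw [enorm_smul, Real.enorm_of_nonneg (k_nn hCF hJ _ _ _)]
  · refine Measurable.aemeasurable ?_
    refine Measurable.lintegral_prod_right' (f := fun z : X × X × Y =>
      ENNReal.ofReal (k z.1 z.2.1 z.2.2) * ‖f z.2.1‖ₑ) ?_
    exact hk.ennreal_ofReal.mul (hf.enorm.comp (measurable_fst.comp measurable_snd))

end Facts

/-- a weighted form of Jensen's inequality -/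
lemma wjensen {Y : Type v} [MeasurableSpace Y] {ν : Measure Y} {t H : Y → ENNReal}
    (ht : Measurable t) (hH : Measurable H) (h1 : ∫⁻ y, t y ∂ν = 1)
    {p : ℝ} (hp : 1 < p) :
    (∫⁻ y, t y * H y ∂ν) ^ p ≤ ∫⁻ y, t y * H y ^ p ∂ν := by
  have hpq := Real.HolderConjugate.conjExponent hp
  set q := p.conjExponent with hq
  have hp0 : 0 < p := by linarith
  have hq0 : 0 < q := hpq.symm.pos
  have h := ENNReal.lintegral_mul_le_Lp_mul_Lq ν hpq (f := fun y => t y ^ (1 / p) * H y)
    (g := fun y => t y ^ (1 / q)) ((ht.pow_const _).mul hH).aemeasurable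
    (ht.pow_const _).aemeasurable
  have e1 : ∀ y, ((fun y => t y ^ (1 / p) * H y) * (fun y => t y ^ (1 / q))) y = t y * H y := by
    intro y
    simp only [Pi.mul_apply]
    have : t y ^ (1 / p) * t y ^ (1 / q) = t y := by
      rw [← ENNReal.rpow_add_of_nonneg _ _ (by positivity) (by positivity)]
      have : 1 / p + 1 / q = 1 := by
        rw [one_div, one_div]; exact hpq.inv_add_inv_eq_one
      rw [this, ENNReal.rpow_one]
    calc t y ^ (1 / p) * H y * t y ^ (1 / q) = (t y ^ (1 / p) * t y ^ (1 / q)) * H y := by ring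
      _ = _ := by rw [this]
  have e2 : ∀ y, (t y ^ (1 / p) * H y) ^ p = t y * H y ^ p := by
    intro y
    rw [ENNReal.mul_rpow_of_nonneg _ _ hp0.le, ← ENNReal.rpow_mul, one_div,
      inv_mul_cancel₀ hp0.ne', ENNReal.rpow_one]
  have e3 : ∀ y, (t y ^ (1 / q)) ^ q = t y := by
    intro y
    rw [← ENNReal.rpow_mul, one_div, inv_mul_cancel₀ hq0.ne', ENNReal.rpow_one]
  simp_rw [e1, e2, e3, h1] at h
  rw [ENNReal.one_rpow, mul_one] at h
  calc (∫⁻ y, t y * H y ∂ν) ^ p ≤ ((∫⁻ y, t y * H y ^ p ∂ν) ^ (1 / p)) ^ p :=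
        ENNReal.rpow_le_rpow h hp0.le
    _ = _ := by rw [← ENNReal.rpow_mul, one_div, inv_mul_cancel₀ hp0.ne', ENNReal.rpow_one]

theorem t_upr : StmCF.{u} → StmCI.{u} → StmUpR.{u,v} := by
  intro hCF hCI X Y _ _ μ ν _ _ t k hJ p hp f hf hfp
  have hp0 : 0 < p := by linarith
  have hk := hJ.meas_k
  have ht := hJ.meas_t
  have hfi : Integrable f μ := hfp.integrable (by
    rw [← ENNReal.ofReal_one]
    exact ENNReal.ofReal_le_ofReal hp.le)
  have hfin : ∫⁻ x, ‖f x‖ₑ ∂μ ≠ ⊤ := hfi.2.ne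
  set Z : X → Y → ℝ := fun x y => ∫ x', k x x' y * f x' ∂μ with hZ
  have hZm : Measurable fun z : X × Y => Z z.1 z.2 := by
    have h1 : StronglyMeasurable fun w : (X × Y) × X => k w.1.1 w.2 w.1.2 * f w.2 := by
      refine (Measurable.mul ?_ (hf.comp measurable_snd)).stronglyMeasurable
      exact hk.comp ((measurable_fst.comp measurable_fst).prodMk
        (measurable_snd.prodMk (measurable_snd.comp measurable_fst)))
    exact (h1.integral_prod_right (ν := μ)).measurable
  have hZ0 : ∀ x y, t x y = 0 → Z x y = 0 := by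
    intro x y h
    simp only [hZ]
    have h1 : ∀ x', k x x' y * f x' = 0 := by
      intro x'
      rw [(facts hCF hJ y).k_zero x h x', zero_mul]
    simp_rw [h1]
    simp
  set H : X → Y → ℝ := fun x y => |f x - Z x y / t x y| with hH
  have hHm : Measurable fun z : X × Y => H z.1 z.2 := by
    simp only [hH]
    exact (((hf.comp measurable_fst).sub (hZm.div ht))).abs
  -- almost every cell
  have hcell : ∀ᵐ y ∂ν, Integrable (fun x => t x y * f x) μ := by
    have h1 : ∫⁻ y, ∫⁻ x, ENNReal.ofReal (t x y) * ‖f x‖ₑ ∂μ ∂ν ≠ ⊤ := by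
      rw [lintegral_lintegral_swap]
      · have : ∀ x, ∫⁻ y, ENNReal.ofReal (t x y) * ‖f x‖ₑ ∂ν = ‖f x‖ₑ := by
          intro x
          rw [lintegral_mul_const, lint_t hCF hJ, one_mul]
          exact (ht.comp (measurable_const.prodMk measurable_id)).ennreal_ofReal
        simp_rw [this]
        exact hfin
      · exact ((ht.comp measurable_swap).ennreal_ofReal.mul
          (hf.enorm.comp measurable_snd)).aemeasurable
    have h2 := ae_lt_top' ?_ h1
    · filter_upwards [h2] with y hy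
      refine ⟨((ht.comp (measurable_id.prodMk measurable_const)).mul hf).aestronglyMeasurable, ?_⟩
      refine lt_of_le_of_lt (le_of_eq ?_) hy
      refine lintegral_congr fun x => ?_
      rw [enorm_mul, Real.enorm_of_nonneg (t_nn hCF hJ _ _)]
    · refine Measurable.aemeasurable ?_
      refine Measurable.lintegral_prod_right' (f := fun z : Y × X =>
        ENNReal.ofReal (t z.2 z.1) * ‖f z.2‖ₑ) ?_
      exact (ht.comp measurable_swap).ennreal_ofReal.mul (hf.enorm.comp measurable_snd)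
  -- pointwise bound
  have hpt : ∀ᵐ x ∂μ, ENNReal.ofReal (|f x - ∫ z : X × Y, k x z.1 z.2 * f z.1 ∂(μ.prod ν)| ^ p) ≤
      ∫⁻ y, ENNReal.ofReal (t x y * H x y ^ p) ∂ν := by
    filter_upwards [ae_int hCF hJ hf.stronglyMeasurable hfin] with x hx
    simp only [smul_eq_mul] at hx
    have e1 : ∫ z : X × Y, k x z.1 z.2 * f z.1 ∂(μ.prod ν) = ∫ y, Z x y ∂ν := by
      rw [integral_prod_symm _ hx]
    have hZi : Integrable (fun y => Z x y) ν := hx.integral_prod_right
    have e2 : f x - ∫ z : X × Y, k x z.1 z.2 * f z.1 ∂(μ.prod ν) =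
        ∫ y, (t x y * f x - Z x y) ∂ν := by
      rw [e1, integral_sub ((t_int hJ x).mul_const _) hZi, integral_mul_const, hJ.one, one_mul]
    have e3 : ∀ y, ‖t x y * f x - Z x y‖ₑ = ENNReal.ofReal (t x y) * ENNReal.ofReal (H x y) := by
      intro y
      have h1 : t x y * f x - Z x y = t x y * (f x - Z x y / t x y) := by
        by_cases h : t x y = 0
        · rw [hZ0 x y h, h]; simp
        · field_simp
      rw [h1, enorm_mul, Real.enorm_of_nonneg (t_nn hCF hJ _ _)]
      congr 1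
      rw [← ofReal_norm, Real.norm_eq_abs]
    have e4 : ENNReal.ofReal |f x - ∫ z : X × Y, k x z.1 z.2 * f z.1 ∂(μ.prod ν)| ≤
        ∫⁻ y, ENNReal.ofReal (t x y) * ENNReal.ofReal (H x y) ∂ν := by
      rw [← Real.norm_eq_abs, ofReal_norm, e2]
      refine (enorm_integral_le_lintegral_enorm _).trans (le_of_eq ?_)
      exact lintegral_congr e3
    have e5 : ∀ y, ENNReal.ofReal (t x y * H x y ^ p) =
        ENNReal.ofReal (t x y) * ENNReal.ofReal (H x y) ^ p := by
      intro y
      rw [ENNReal.ofReal_mul (t_nn hCF hJ _ _),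
        ENNReal.ofReal_rpow_of_nonneg (abs_nonneg _) hp0.le]
    simp_rw [e5]
    rw [← ENNReal.ofReal_rpow_of_nonneg (abs_nonneg _) hp0.le]
    refine (ENNReal.rpow_le_rpow e4 hp0.le).trans ?_
    refine wjensen ?_ ?_ (lint_t hCF hJ x) hp
    · exact (ht.comp (measurable_const.prodMk measurable_id)).ennreal_ofReal
    · exact (hHm.comp (measurable_const.prodMk measurable_id)).ennreal_ofReal
  calc ∫⁻ x, ENNReal.ofReal (|f x - ∫ z : X × Y, k x z.1 z.2 * f z.1 ∂(μ.prod ν)| ^ p) ∂μ
      ≤ ∫⁻ x, ∫⁻ y, ENNReal.ofReal (t x y * H x y ^ p) ∂ν ∂μ := lintegral_mono_ae hpt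
    _ = ∫⁻ y, ∫⁻ x, ENNReal.ofReal (t x y * H x y ^ p) ∂μ ∂ν := by
        rw [lintegral_lintegral_swap]
        exact (ht.mul (hHm.pow_const p)).ennreal_ofReal.aemeasurable
    _ ≤ ∫⁻ y, ENNReal.ofReal (C p ^ p) * ∫⁻ x, ENNReal.ofReal (t x y * |f x| ^ p) ∂μ ∂ν := by
        refine lintegral_mono_ae ?_
        filter_upwards [hcell] with y hy
        exact hCI X μ _ _ (hJ.cell y) p hp f hf hy
    _ = ENNReal.ofReal (C p ^ p) * ∫⁻ y, ∫⁻ x, ENNReal.ofReal (t x y * |f x| ^ p) ∂μ ∂ν := by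
        rw [lintegral_const_mul' _ _ ENNReal.ofReal_ne_top]
    _ = ENNReal.ofReal (C p ^ p) * ∫⁻ x, ENNReal.ofReal (|f x| ^ p) ∂μ := by
        congr 1
        rw [lintegral_lintegral_swap]
        · refine lintegral_congr fun x => ?_
          have : ∀ y, ENNReal.ofReal (t x y * |f x| ^ p) =
              ENNReal.ofReal (t x y) * ENNReal.ofReal (|f x| ^ p) := fun y =>
            ENNReal.ofReal_mul (t_nn hCF hJ _ _)
          simp_rw [this]
          rw [lintegral_mul_const, lint_t hCF hJ, one_mul]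
          exact (ht.comp (measurable_const.prodMk measurable_id)).ennreal_ofReal
        · exact ((ht.comp measurable_swap).mul
            ((hf.comp measurable_snd).abs.pow_const p)).ennreal_ofReal.aemeasurable

end Pool.Agent.Y694.BT
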